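import Pool.Agent.TH954.X2.WDefs

/-!
# The points of an elliptic curve over an algebraically closed field form a divisible group

By helper757 for helper954. Let `s = 1 / x`. For `m ≥ 1` and almost all `s` the multiple `m Q` of the
point `Q = (1 / s, y)` is `(U_m(s) / s, y V_m(s))` with rational functions `U_m`, `V_m`, regular at
`s = 0`, `U_m(0) = 1 / m²`, `V_m(0) = 1 / m³`. So `U_m(s) / s` takes almost all values.
-/

set_option autoImplicit false

open Polynomial

namespace Pool.Agent.TH954.X.We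

/-! ### rational functions, regular at zero -/

/-- `φ` is given by a rational function without pole at `0`, for almost all arguments -/
def Rg {F : Type} [Field F] (φ : F → F) : Prop :=
  ∃ A B : F[X], B.eval 0 ≠ 0 ∧ ∀ s, B.eval s ≠ 0 → φ s = A.eval s / B.eval s

section rg

variable {F : Type} [Field F] {φ ψ : F → F}

theorem Rg.const (c : F) : Rg (fun _ : F => c) := ⟨C c, 1, by simp, fun s _ => by simp⟩

theorem Rg.id : Rg (fun s : F => s) := ⟨X, 1, by simp, fun s _ => by simp⟩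

theorem Rg.add (hφ : Rg φ) (hψ : Rg ψ) : Rg (fun s => φ s + ψ s) := by
  obtain ⟨A, B, h0, h⟩ := hφ
  obtain ⟨A', B', h0', h'⟩ := hψ
  refine ⟨A * B' + A' * B, B * B', by simp [h0, h0'], fun s hs => ?_⟩
  rw [eval_mul, mul_ne_zero_iff] at hs
  simp only [h s hs.1, h' s hs.2, eval_add, eval_mul]
  field_simp [hs.1, hs.2]

theorem Rg.mul (hφ : Rg φ) (hψ : Rg ψ) : Rg (fun s => φ s * ψ s) := by
  obtain ⟨A, B, h0, h⟩ := hφ
  obtain ⟨A', B', h0', h'⟩ := hψ
  refine ⟨A * A', B * B', by simp [h0, h0'], fun s hs => ?_⟩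
  rw [eval_mul, mul_ne_zero_iff] at hs
  simp only [h s hs.1, h' s hs.2, eval_mul]
  field_simp [hs.1, hs.2]

theorem Rg.inv (hφ : Rg φ) (hz : φ 0 ≠ 0) : Rg (fun s => (φ s)⁻¹) := by
  obtain ⟨A, B, h0, h⟩ := hφ
  have hA : A.eval 0 ≠ 0 := by
    intro hA
    apply hz
    rw [h 0 h0, hA, zero_div]
  refine ⟨B * B, A * B, by simp [h0, hA], fun s hs => ?_⟩
  rw [eval_mul, mul_ne_zero_iff] at hs
  simp only [h s hs.2, eval_mul]
  field_simp [hs.1, hs.2]

theorem Rg.neg (hφ : Rg φ) : Rg (fun s => -φ s) := by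
  have := (Rg.const (-1 : F)).mul hφ
  simpa using this

theorem Rg.sub (hφ : Rg φ) (hψ : Rg ψ) : Rg (fun s => φ s - ψ s) := by
  have := hφ.add hψ.neg
  simpa [sub_eq_add_neg] using this

theorem Rg.div (hφ : Rg φ) (hψ : Rg ψ) (hz : ψ 0 ≠ 0) : Rg (fun s => φ s / ψ s) := by
  have := hφ.mul (hψ.inv hz)
  simpa [div_eq_mul_inv] using this

theorem Rg.pow (hφ : Rg φ) (n : ℕ) : Rg (fun s => φ s ^ n) := by
  induction n with
  | zero => simpa using Rg.const (1 : F)
  | succ n ih =>
    have := ih.mul hφ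
    simpa [pow_succ] using this

theorem Rg.finite (hφ : Rg φ) (hz : φ 0 ≠ 0) : {s | φ s = 0}.Finite := by
  obtain ⟨A, B, h0, h⟩ := hφ
  have hA : A ≠ 0 := by
    rintro rfl
    apply hz
    rw [h 0 h0, eval_zero, zero_div]
  have hB : B ≠ 0 := by
    rintro rfl
    exact h0 eval_zero
  refine ((A * B).rootSet_finite F).subset ?_
  intro s hs
  rw [Polynomial.mem_rootSet]
  refine ⟨mul_ne_zero hA hB, ?_⟩
  rw [map_mul]
  by_cases hb : B.eval s = 0
  · simp [coe_aeval_eq_eval, hb]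
  · have h1 : A.eval s / B.eval s = 0 := by rw [← h s hb]; exact hs
    rw [div_eq_zero_iff] at h1
    rcases h1 with h1 | h1
    · simp [coe_aeval_eq_eval, h1]
    · exact absurd h1 hb

end rg

/-! ### the rational functions -/

/-- the functions `U_{n+1}` and `V_{n+1}` -/
def UV {F : Type} [Field F] (a b : F) : ℕ → F → F × F
  | 0, _ => (1, 1)
  | 1, s => ((3 + a * s ^ 2) ^ 2 / (4 * (1 + a * s ^ 2 + b * s ^ 3)) - 2,
      -1 - (3 + a * s ^ 2) / (2 * (1 + a * s ^ 2 + b * s ^ 3)) *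
        ((3 + a * s ^ 2) ^ 2 / (4 * (1 + a * s ^ 2 + b * s ^ 3)) - 2 - 1))
  | n + 2, s =>
    ((1 + a * s ^ 2 + b * s ^ 3) * ((UV a b (n + 1) s).2 - 1) ^ 2 /
        ((UV a b (n + 1) s).1 - 1) ^ 2 - (UV a b (n + 1) s).1 - 1,
      -1 - ((UV a b (n + 1) s).2 - 1) *
        ((1 + a * s ^ 2 + b * s ^ 3) * ((UV a b (n + 1) s).2 - 1) ^ 2 /
          ((UV a b (n + 1) s).1 - 1) ^ 2 - (UV a b (n + 1) s).1 - 1 - 1) /
        ((UV a b (n + 1) s).1 - 1))

section uv

variable {F : Type} [Field F] [CharZero F] (a b : F)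

theorem UV_zero_arg (n : ℕ) :
    UV a b n 0 = (1 / ((n : F) + 1) ^ 2, 1 / ((n : F) + 1) ^ 3) := by
  induction n with
  | zero => simp [UV]
  | succ n ih =>
    rcases n with _ | n
    · simp only [UV]
      ext <;> norm_num
    · have h1 : ((n : F) + 1 + 1) ≠ 0 := by exact_mod_cast (by omega : n + 1 + 1 ≠ 0)
      have h2 : ((n : F) + 1 + 1 + 1) ≠ 0 := by exact_mod_cast (by omega : n + 1 + 1 + 1 ≠ 0)
      have h3 : ((n : F) + 1) ≠ 0 := by exact_mod_cast (by omega : n + 1 ≠ 0)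
      have h4 : (1 : F) - ((n : F) + 1 + 1) ^ 2 ≠ 0 := by
        have : (1 : F) - ((n : F) + 1 + 1) ^ 2 = -((n + 1) * (n + 1 + 1 + 1)) := by ring
        rw [this]
        exact neg_ne_zero.2 (mul_ne_zero h3 h2)
      have h5 : (1 : F) / ((n : F) + 1 + 1) ^ 2 - 1 ≠ 0 := by
        rw [div_sub_one (pow_ne_zero 2 h1)]
        exact div_ne_zero h4 (pow_ne_zero 2 h1)
      simp only [UV, ih]
      push_cast
      ext
      · field_simp
        ring
      · field_simp
        ring

omit [CharZero F] in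
theorem rg_g : Rg (fun s : F => 1 + a * s ^ 2 + b * s ^ 3) :=
  ((Rg.const 1).add ((Rg.const a).mul (Rg.id.pow 2))).add ((Rg.const b).mul (Rg.id.pow 3))

theorem rg_UV (n : ℕ) : Rg (fun s => (UV a b n s).1) ∧ Rg (fun s => (UV a b n s).2) := by
  induction n with
  | zero =>
    simp only [UV]
    exact ⟨Rg.const 1, Rg.const 1⟩
  | succ n ih =>
    rcases n with _ | n
    · simp only [UV]
      have h3 : Rg (fun s : F => 3 + a * s ^ 2) :=
        (Rg.const 3).add ((Rg.const a).mul (Rg.id.pow 2))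
      have hU : Rg (fun s : F => (3 + a * s ^ 2) ^ 2 / (4 * (1 + a * s ^ 2 + b * s ^ 3)) - 2) :=
        ((h3.pow 2).div ((Rg.const 4).mul (rg_g a b)) (by norm_num)).sub (Rg.const 2)
      exact ⟨hU, (Rg.const (-1)).sub ((h3.div ((Rg.const 2).mul (rg_g a b)) (by norm_num)).mul
        (hU.sub (Rg.const 1)))⟩
    · obtain ⟨h1, h2⟩ := ih
      simp only [UV]
      have hz : (UV a b (n + 1) 0).1 - 1 ≠ 0 := by
        rw [UV_zero_arg]
        have h1 : (((n + 1 : ℕ) : F) + 1) ≠ 0 := by exact_mod_cast (by omega : n + 1 + 1 ≠ 0)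
        have h2 : ((n : F) + 1 + 1 + 1) ≠ 0 := by exact_mod_cast (by omega : n + 1 + 1 + 1 ≠ 0)
        have h3 : ((n : F) + 1) ≠ 0 := by exact_mod_cast (by omega : n + 1 ≠ 0)
        simp only
        rw [div_sub_one (pow_ne_zero 2 h1)]
        refine div_ne_zero ?_ (pow_ne_zero 2 h1)
        have : (1 : F) - (((n + 1 : ℕ) : F) + 1) ^ 2 = -((n + 1) * (n + 1 + 1 + 1)) := by
          push_cast
          ring
        rw [this]
        exact neg_ne_zero.2 (mul_ne_zero h3 h2)
      have hd := h1.sub (Rg.const 1)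
      have hU := ((((rg_g a b).mul ((h2.sub (Rg.const 1)).pow 2)).div (hd.pow 2)
        (pow_ne_zero 2 hz)).sub h1).sub (Rg.const 1)
      exact ⟨hU, (Rg.const (-1)).sub ((((h2.sub (Rg.const 1)).mul (hU.sub (Rg.const 1)))).div hd
        hz)⟩

theorem UV_fst_ne_one (n : ℕ) : (UV a b (n + 1) 0).1 - 1 ≠ 0 := by
  rw [UV_zero_arg]
  have h1 : (((n + 1 : ℕ) : F) + 1) ≠ 0 := by exact_mod_cast (by omega : n + 1 + 1 ≠ 0)
  have h2 : ((n : F) + 1 + 1 + 1) ≠ 0 := by exact_mod_cast (by omega : n + 1 + 1 + 1 ≠ 0)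
  have h3 : ((n : F) + 1) ≠ 0 := by exact_mod_cast (by omega : n + 1 ≠ 0)
  simp only
  rw [div_sub_one (pow_ne_zero 2 h1)]
  refine div_ne_zero ?_ (pow_ne_zero 2 h1)
  have : (1 : F) - (((n + 1 : ℕ) : F) + 1) ^ 2 = -((n + 1) * (n + 1 + 1 + 1)) := by
    push_cast
    ring
  rw [this]
  exact neg_ne_zero.2 (mul_ne_zero h3 h2)

end uv

/-! ### the group law -/

/-- `P` is the affine point `(x, y)` -/
def At {F : Type} [Field F] {W : WeierstrassCurve F} (P : W.toAffine.Point) (x y : F) : Prop :=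
  ∃ h : W.toAffine.Nonsingular x y, P = .some x y h

section group

open WeierstrassCurve.Affine WeierstrassCurve.Affine.Point

variable {F : Type} [Field F] [DecidableEq F] {a b : F}

omit [DecidableEq F] in
theorem curve_eqn {x y : F} (h : (curve a b).toAffine.Nonsingular x y) :
    y ^ 2 = x ^ 3 + a * x + b := by
  have := (equation_iff _ _).1 h.1
  simpa [curve] using this

omit [DecidableEq F] in
theorem curve_nonsing (hd : 4 * a ^ 3 + 27 * b ^ 2 ≠ 0) [CharZero F] {x y : F}
    (h : y ^ 2 = x ^ 3 + a * x + b) : (curve a b).toAffine.Nonsingular x y := by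
  have hΔ : (curve a b).toAffine.Δ ≠ 0 := by
    have e : (curve a b).toAffine.Δ = -16 * (4 * a ^ 3 + 27 * b ^ 2) := by
      simp only [curve, WeierstrassCurve.Δ, WeierstrassCurve.b₂, WeierstrassCurve.b₄,
        WeierstrassCurve.b₆, WeierstrassCurve.b₈]
      ring
    rw [e]
    exact mul_ne_zero (by norm_num) hd
  rw [← equation_iff_nonsingular_of_Δ_ne_zero hΔ, equation_iff]
  simpa [curve] using h

theorem At.chord {P Q : (curve a b).toAffine.Point} {x₁ y₁ x₂ y₂ : F} (hP : At P x₁ y₁)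
    (hQ : At Q x₂ y₂) (hx : x₁ ≠ x₂) :
    At (P + Q) (((y₁ - y₂) / (x₁ - x₂)) ^ 2 - x₁ - x₂)
      (-((y₁ - y₂) / (x₁ - x₂) * (((y₁ - y₂) / (x₁ - x₂)) ^ 2 - x₁ - x₂ - x₁) + y₁)) := by
  obtain ⟨h₁, rfl⟩ := hP
  obtain ⟨h₂, rfl⟩ := hQ
  rw [add_of_X_ne hx]
  have hn := nonsingular_add h₁ h₂ fun hxy => hx hxy.left
  have e1 : (curve a b).toAffine.addX x₁ x₂ ((curve a b).toAffine.slope x₁ x₂ y₁ y₂) =
      ((y₁ - y₂) / (x₁ - x₂)) ^ 2 - x₁ - x₂ := by
    rw [slope_of_X_ne hx, addX]
    simp [curve]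
  have e2 : (curve a b).toAffine.addY x₁ x₂ y₁ ((curve a b).toAffine.slope x₁ x₂ y₁ y₂) =
      -((y₁ - y₂) / (x₁ - x₂) * (((y₁ - y₂) / (x₁ - x₂)) ^ 2 - x₁ - x₂ - x₁) + y₁) := by
    rw [addY, negAddY, e1, negY, slope_of_X_ne hx]
    simp [curve]
  refine ⟨by rw [e1, e2] at hn; exact hn, ?_⟩
  simp only [Point.some.injEq]
  exact ⟨e1, e2⟩

theorem At.tangent {P : (curve a b).toAffine.Point} {x y : F} (hP : At P x y) (hy : y ≠ 0)
    [CharZero F] : At (P + P) (((3 * x ^ 2 + a) / (2 * y)) ^ 2 - x - x)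
      (-((3 * x ^ 2 + a) / (2 * y) * (((3 * x ^ 2 + a) / (2 * y)) ^ 2 - x - x - x) + y)) := by
  obtain ⟨h₁, rfl⟩ := hP
  have hne : y ≠ (curve a b).toAffine.negY x y := by
    rw [negY]
    simp only [curve, zero_mul, sub_zero]
    intro h
    apply hy
    have : 2 * y = 0 := by linear_combination h
    simpa using this
  rw [add_self_of_Y_ne hne]
  have hn := nonsingular_add h₁ h₁ fun hxy => hne hxy.right
  have es : (curve a b).toAffine.slope x x y y = (3 * x ^ 2 + a) / (2 * y) := by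
    rw [slope_of_Y_ne rfl hne, negY]
    simp [curve]
    ring
  have e1 : (curve a b).toAffine.addX x x ((curve a b).toAffine.slope x x y y) =
      ((3 * x ^ 2 + a) / (2 * y)) ^ 2 - x - x := by
    rw [es, addX]
    simp [curve]
  have e2 : (curve a b).toAffine.addY x x y ((curve a b).toAffine.slope x x y y) =
      -((3 * x ^ 2 + a) / (2 * y) * (((3 * x ^ 2 + a) / (2 * y)) ^ 2 - x - x - x) + y) := by
    rw [addY, negAddY, e1, negY, es]
    simp [curve]
  refine ⟨by rw [e1, e2] at hn; exact hn, ?_⟩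
  simp only [Point.some.injEq]
  exact ⟨e1, e2⟩

/-- the multiples of the point `(1 / s, y)`, for almost all `s` -/
theorem At.multiple [CharZero F] (a b : F) (n : ℕ) : ∃ Z : Set F, Z.Finite ∧ ∀ s, s ∉ Z →
    ∀ (y : F) (Q : (curve a b).toAffine.Point), At Q (1 / s) y →
      At ((n + 1) • Q) ((UV a b n s).1 / s) (y * (UV a b n s).2) := by
  induction n with
  | zero =>
    refine ⟨∅, Set.finite_empty, fun s _ y Q hQ => ?_⟩
    simpa [UV] using hQ
  | succ n ih =>
    obtain ⟨Z, hZ, h⟩ := ih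
    rcases n with _ | n
    · have hg : {s : F | 1 + a * s ^ 2 + b * s ^ 3 = 0}.Finite := (rg_g a b).finite (by norm_num)
      refine ⟨{0} ∪ {s : F | 1 + a * s ^ 2 + b * s ^ 3 = 0}, (Set.finite_singleton 0).union hg,
        fun s hs y Q hQ => ?_⟩
      simp only [Set.mem_union, Set.mem_singleton_iff, Set.mem_ofPred_eq, not_or] at hs
      obtain ⟨hs0, hsg⟩ := hs
      have hy2 : y ^ 2 * s ^ 3 = 1 + a * s ^ 2 + b * s ^ 3 := by
        obtain ⟨hn, -⟩ := hQ
        rw [curve_eqn hn]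
        field_simp
      have hy : y ≠ 0 := by
        rintro rfl
        apply hsg
        rw [← hy2]
        ring
      have ht := hQ.tangent hy
      rw [show (0 + 1 + 1) • Q = Q + Q by rw [zero_add, one_add_one_eq_two, two_nsmul]]
      have e1 : (UV a b (0 + 1) s).1 / s = ((3 * (1 / s) ^ 2 + a) / (2 * y)) ^ 2 - 1 / s - 1 / s := by
        simp only [UV]
        rw [← hy2]
        field_simp
        ring
      have e2 : y * (UV a b (0 + 1) s).2 = -((3 * (1 / s) ^ 2 + a) / (2 * y) *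
          (((3 * (1 / s) ^ 2 + a) / (2 * y)) ^ 2 - 1 / s - 1 / s - 1 / s) + y) := by
        simp only [UV]
        rw [← hy2]
        field_simp
        ring
      rw [e1, e2]
      exact ht
    · have hU : {s : F | (UV a b (n + 1) s).1 - 1 = 0}.Finite :=
        ((rg_UV a b (n + 1)).1.sub (Rg.const 1)).finite (UV_fst_ne_one a b n)
      refine ⟨Z ∪ ({0} ∪ {s : F | (UV a b (n + 1) s).1 - 1 = 0}),
        hZ.union ((Set.finite_singleton 0).union hU), fun s hs y Q hQ => ?_⟩
      simp only [Set.mem_union, Set.mem_singleton_iff, Set.mem_ofPred_eq, not_or] at hs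
      obtain ⟨hsZ, hs0, hsU⟩ := hs
      have hy2 : y ^ 2 * s ^ 3 = 1 + a * s ^ 2 + b * s ^ 3 := by
        obtain ⟨hn, -⟩ := hQ
        rw [curve_eqn hn]
        field_simp
      have hm := h s hsZ y Q hQ
      have hx : 1 / s ≠ (UV a b (n + 1) s).1 / s := by
        intro he
        apply hsU
        rw [div_left_inj' hs0] at he
        rw [← he, sub_self]
      have hc := hQ.chord hm hx
      rw [show (n + 1 + 1 + 1) • Q = Q + (n + 1 + 1) • Q from succ_nsmul' Q (n + 1 + 1)]
      obtain ⟨u, hu⟩ : ∃ u, u = (UV a b (n + 1) s).1 := ⟨_, rfl⟩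
      obtain ⟨v, hv⟩ : ∃ v, v = (UV a b (n + 1) s).2 := ⟨_, rfl⟩
      rw [← hu] at hsU hc
      rw [← hv] at hc
      have hu1 : 1 - u ≠ 0 := by
        intro h1
        apply hsU
        linear_combination -h1
      have e0 : (y - y * v) / (1 / s - u / s) = y * s * (v - 1) / (u - 1) := by
        rw [div_sub_div_same, div_div_eq_mul_div, div_eq_div_iff hu1 hsU]
        ring
      have e1 : (UV a b (n + 1 + 1) s).1 / s =
          ((y - y * v) / (1 / s - u / s)) ^ 2 - 1 / s - u / s := by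
        rw [e0]
        simp only [UV]
        rw [← hy2, ← hu, ← hv]
        field_simp
        ring
      have e2 : y * (UV a b (n + 1 + 1) s).2 = -((y - y * v) / (1 / s - u / s) *
          (((y - y * v) / (1 / s - u / s)) ^ 2 - 1 / s - u / s - 1 / s) + y) := by
        rw [e0]
        simp only [UV]
        rw [← hy2, ← hu, ← hv]
        field_simp
        ring
      rw [e1, e2]
      exact hc

end group

/-- a rational function which is regular and nonzero at zero, divided by `s`, takes almost all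
values, outside of any finite set -/
theorem Rg.surj {F : Type} [Field F] [IsAlgClosed F] {φ : F → F} (hφ : Rg φ) (hz : φ 0 ≠ 0)
    (Z : Set F) (hZ : Z.Finite) : ∃ X0 : Set F, X0.Finite ∧ ∀ x, x ∉ X0 → ∃ s, s ∉ Z ∧ s ≠ 0 ∧
      φ s / s = x := by
  classical
  obtain ⟨A, B, h0, h⟩ := hφ
  have hA0 : A.eval 0 ≠ 0 := by
    intro hA
    apply hz
    rw [h 0 h0, hA, zero_div]
  have hB : B ≠ 0 := by
    rintro rfl
    exact h0 eval_zero
  obtain ⟨A', hA'⟩ := EuclideanDomain.gcd_dvd_left A B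
  obtain ⟨B', hB'⟩ := EuclideanDomain.gcd_dvd_right A B
  obtain ⟨g, hg⟩ : ∃ g, g = EuclideanDomain.gcd A B := ⟨_, rfl⟩
  rw [← hg] at hA' hB'
  have hg0 : g ≠ 0 := by
    rintro rfl
    rw [zero_mul] at hB'
    exact hB hB'
  have hcop : IsCoprime A' B' := by
    have h1 := EuclideanDomain.gcd_eq_gcd_ab A B
    refine ⟨EuclideanDomain.gcdA A B, EuclideanDomain.gcdB A B, ?_⟩
    rw [← hg] at h1
    apply mul_left_cancel₀ hg0
    calc g * (EuclideanDomain.gcdA A B * A' + EuclideanDomain.gcdB A B * B') =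
        (g * A') * EuclideanDomain.gcdA A B + (g * B') * EuclideanDomain.gcdB A B := by ring
      _ = A * EuclideanDomain.gcdA A B + B * EuclideanDomain.gcdB A B := by rw [← hA', ← hB']
      _ = g := h1.symm
      _ = g * 1 := (mul_one g).symm
  have hA'0 : A'.eval 0 ≠ 0 := by
    intro h1
    apply hA0
    rw [hA', eval_mul, h1, mul_zero]
  have hB'0 : B' ≠ 0 := by
    rintro rfl
    rw [mul_zero] at hB'
    exact hB hB'
  have hroots : {s | B.eval s = 0}.Finite := by
    refine (B.rootSet_finite F).subset fun s hs => ?_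
    rw [Polynomial.mem_rootSet]
    exact ⟨hB, by simpa [coe_aeval_eq_eval] using hs⟩
  have hbad : (Z ∪ {s | B.eval s = 0}).Finite := hZ.union hroots
  have hE : {x : F | (A' - C x * X * B').degree = 0}.Finite := by
    apply Set.Subsingleton.finite
    intro x hx x' hx'
    by_contra hne
    rw [Set.mem_ofPred_eq] at hx hx'
    have h1 : (C (x' - x) * X * B').degree ≤ 0 := by
      have e : C (x' - x) * X * B' = (A' - C x * X * B') - (A' - C x' * X * B') := by
        rw [C_sub]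
        ring
      rw [e]
      exact (degree_sub_le _ _).trans (by rw [hx, hx', max_self])
    have h2 : (C (x' - x) * X * B').degree = 1 + B'.degree := by
      rw [degree_mul, degree_mul, degree_C (sub_ne_zero.2 (Ne.symm hne)), degree_X, zero_add]
    rw [h2, degree_eq_natDegree hB'0] at h1
    have h3 : 1 + B'.natDegree ≤ 0 := by exact_mod_cast h1
    omega
  refine ⟨(fun s => A'.eval s / (s * B'.eval s)) '' (Z ∪ {s | B.eval s = 0}) ∪
    {x : F | (A' - C x * X * B').degree = 0}, (hbad.image _).union hE, fun x hx => ?_⟩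
  rw [Set.mem_union, not_or] at hx
  obtain ⟨hx1, hx2⟩ := hx
  obtain ⟨s, hs⟩ := IsAlgClosed.exists_root _ hx2
  have hs' : A'.eval s = x * s * B'.eval s := by
    have : eval s (A' - C x * X * B') = 0 := hs
    simp only [eval_sub, eval_mul, eval_C, eval_X] at this
    linear_combination this
  have hs0 : s ≠ 0 := by
    rintro rfl
    apply hA'0
    rw [hs']
    ring
  have hBs : B'.eval s ≠ 0 := by
    intro h1
    obtain ⟨u, v, huv⟩ := hcop
    have h2 := congrArg (eval s) huv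
    rw [eval_add, eval_mul, eval_mul, hs', h1, eval_one] at h2
    apply one_ne_zero (α := F)
    rw [← h2]
    ring
  have hxe : x = A'.eval s / (s * B'.eval s) := by
    rw [hs']
    field_simp
  have hsb : s ∉ Z ∪ {s | B.eval s = 0} := by
    intro hmem
    exact hx1 ⟨s, hmem, hxe.symm⟩
  rw [Set.mem_union, not_or] at hsb
  refine ⟨s, hsb.1, hs0, ?_⟩
  have hBs2 : B.eval s ≠ 0 := hsb.2
  have hgs : g.eval s ≠ 0 := by
    intro h1
    apply hBs2
    rw [hB', eval_mul, h1, zero_mul]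
  rw [h s hBs2, hA', hB', eval_mul, eval_mul, mul_div_mul_left _ _ hgs, hs']
  field_simp

/-! ### divisibility -/

section div

open WeierstrassCurve.Affine WeierstrassCurve.Affine.Point

variable {F : Type} [Field F] [DecidableEq F] {a b : F}

omit [DecidableEq F] in
theorem finite_x (x : F) : {R : (curve a b).toAffine.Point | ∃ y, At R x y}.Finite := by
  by_cases hne : ({R : (curve a b).toAffine.Point | ∃ y, At R x y}).Nonempty
  · obtain ⟨R0, y0, hR0⟩ := hne
    refine ((Set.finite_singleton R0).union (Set.finite_singleton (-R0))).subset ?_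
    rintro R ⟨y, hR⟩
    obtain ⟨h0, rfl⟩ := hR0
    obtain ⟨h1, rfl⟩ := hR
    rcases (X_eq_iff (h₁ := h1) (h₂ := h0)).1 rfl with h | h
    · exact Or.inl h
    · exact Or.inr h
  · rw [Set.not_nonempty_iff_eq_empty] at hne
    rw [hne]
    exact Set.finite_empty

theorem div : T_div := by
  intro F _ _ _ _ a b hd P m hm
  obtain ⟨n, rfl⟩ : ∃ n, m = n + 1 := ⟨m - 1, by omega⟩
  obtain ⟨Z, hZ, hmul⟩ := At.multiple a b n
  have hz : (UV a b n 0).1 ≠ 0 := by
    rw [UV_zero_arg]
    have h1 : ((n : F) + 1) ≠ 0 := by exact_mod_cast (by omega : n + 1 ≠ 0)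
    exact one_div_ne_zero (pow_ne_zero 2 h1)
  obtain ⟨X0, hX0, hsurj⟩ := (rg_UV a b n).1.surj hz Z hZ
  have hsq : ∀ c : F, ∃ y, y ^ 2 = c := fun c => IsAlgClosed.exists_pow_nat_eq c (by norm_num)
  -- almost all points are multiples
  have hgood : ∀ R : (curve a b).toAffine.Point, R ≠ 0 → (∀ x ∈ X0, ∀ y, ¬ At R x y) →
      ∃ Q : (curve a b).toAffine.Point, (n + 1) • Q = R := by
    intro R hR0 hR
    rcases R with _ | ⟨x, y, hxy⟩
    · exact absurd rfl hR0
    · have hx : x ∉ X0 := fun h => hR x h y ⟨hxy, rfl⟩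
      obtain ⟨s, hsZ, hs0, hs⟩ := hsurj x hx
      obtain ⟨w, hw⟩ := hsq ((1 / s) ^ 3 + a * (1 / s) + b)
      have hn := curve_nonsing hd hw
      obtain ⟨hm1, hm2⟩ := hmul s hsZ w (.some (1 / s) w hn) ⟨hn, rfl⟩
      rcases (X_eq_iff (h₁ := hm1) (h₂ := hxy)).1 hs with h | h
      · exact ⟨.some (1 / s) w hn, by rw [hm2, h]⟩
      · exact ⟨-.some (1 / s) w hn, by rw [smul_neg, hm2, h, neg_neg]⟩
  -- the bad points
  have hbad : ({(0 : (curve a b).toAffine.Point)} ∪
      ⋃ x ∈ X0, {R : (curve a b).toAffine.Point | ∃ y, At R x y}).Finite :=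
    (Set.finite_singleton 0).union (hX0.biUnion fun x _ => finite_x x)
  have hinf : Infinite (curve a b).toAffine.Point := by
    have h1 : ∀ t : F, ∃ y, (curve a b).toAffine.Nonsingular t y := fun t => by
      obtain ⟨w, hw⟩ := hsq (t ^ 3 + a * t + b)
      exact ⟨w, curve_nonsing hd hw⟩
    choose f hf using h1
    refine Infinite.of_injective (fun t : F => (.some t (f t) (hf t) :
      (curve a b).toAffine.Point)) fun t t' h => ?_
    simp only [Point.some.injEq] at h
    exact h.1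
  have hbad2 := hbad.union (hbad.preimage (f := fun R => P - R)
    (sub_right_injective.injOn))
  obtain ⟨R, hR⟩ := hbad2.exists_notMem
  rw [Set.mem_union, not_or, Set.mem_preimage] at hR
  have hconv : ∀ R : (curve a b).toAffine.Point, R ∉ ({(0 : (curve a b).toAffine.Point)} ∪
      ⋃ x ∈ X0, {R : (curve a b).toAffine.Point | ∃ y, At R x y}) →
      ∃ Q : (curve a b).toAffine.Point, (n + 1) • Q = R := by
    intro R hR
    rw [Set.mem_union, not_or, Set.mem_singleton_iff] at hR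
    refine hgood R hR.1 fun x hx y hxy => hR.2 ?_
    exact Set.mem_biUnion hx ⟨y, hxy⟩
  obtain ⟨Q1, hQ1⟩ := hconv R hR.1
  obtain ⟨Q2, hQ2⟩ := hconv (P - R) hR.2
  exact ⟨Q1 + Q2, by rw [smul_add, hQ1, hQ2]; abel⟩

end div

end Pool.Agent.TH954.X.We
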