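import Pool.Agent.TH954.X.AbV

/-!
# Weierstrass curves as examples of the structure `AbV`: definitions and targets
-/

set_option autoImplicit false

open MvPolynomial

namespace Pool.Agent.TH954.X.We

/-- the curve `y² = x³ + a x + b` -/
def curve {F : Type} [Field F] (a b : F) : WeierstrassCurve F := ⟨0, 0, 0, a, b⟩

/-- homogeneous coordinates `(z, x, y)` of a point in the projective plane, the first nonzero
coordinate being one -/
def coords {F : Type} [Field F] {W : WeierstrassCurve F} : W.toAffine.Point → Fin 3 → F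
  | .zero => ![0, 0, 1]
  | .some x y _ => ![1, x, y]

/-- the homogeneous equation `y² z = x³ + a x z² + b z³`, with `z = X 0`, `x = X 1`, `y = X 2` -/
noncomputable def eqn {K : Type} [Field K] (a b : K) : Fin 1 → MvPolynomial (Fin 3) K := fun _ =>
  X 2 ^ 2 * X 0 - (X 1 ^ 3 + C a * X 1 * X 0 ^ 2 + C b * X 0 ^ 3)

/-- the form `g` over `F` does not vanish at all points of the curve over extensions of `F` -/
def NonZ {K : Type} [Field K] (a b : K) (F : Type) [Field F] [Algebra K F]
    (g : MvPolynomial (Fin 3) F) : Prop :=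
  ∃ (F' : Type) (_ : Field F') (_ : Algebra K F') (_ : Algebra F F') (_ : IsScalarTower K F F')
    (P : PtE (eqn a b) F'), aeval P.1 g ≠ 0

/-- **Target.** The matrix of forms of bidegree `(2, 2)` for `(P + Q)_i (P - Q)_j`. -/
def T_lam : Prop := ∀ (K : Type) [Field K] [CharZero K] (a b : K), 4 * a ^ 3 + 27 * b ^ 2 ≠ 0 →
  ∃ Λ : Fin 3 → Fin 3 → MvPolynomial (Fin 2 × Fin 3) K, (∀ i j, MH (fun _ => 2) (Λ i j)) ∧
    ∀ (F : Type) [Field F] [DecidableEq F] [Algebra K F]
      (P Q : (curve (algebraMap K F a) (algebraMap K F b)).toAffine.Point),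
      ∃ s : F, s ≠ 0 ∧ ∀ i j,
        ev (Λ i j) ![coords P, coords Q] = s * (coords (P + Q) i * coords (P - Q) j)

/-- **Target.** The points over algebraically closed fields form a divisible group. -/
def T_div : Prop := ∀ (F : Type) [Field F] [DecidableEq F] [CharZero F] [IsAlgClosed F] (a b : F),
  4 * a ^ 3 + 27 * b ^ 2 ≠ 0 → ∀ (P : (curve a b).toAffine.Point) (m : ℕ), 0 < m →
    ∃ Q : (curve a b).toAffine.Point, m • Q = P

/-- **Target.** Geometric irreducibility and independence of the coordinates `z`, `x`. -/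
def T_irr : Prop := ∀ (K : Type) [Field K] (a b : K) (F : Type) [Field F] [Algebra K F],
  (∀ (g h : MvPolynomial (Fin 3) F) (d e : ℕ), g.IsHomogeneous d → h.IsHomogeneous e →
    NonZ a b F g → NonZ a b F h → NonZ a b F (g * h)) ∧
  ∀ (g : MvPolynomial (Option (Fin 1)) F) (d : ℕ), g.IsHomogeneous d → g ≠ 0 →
    NonZ a b F (rename (fun o => Option.elim o (0 : Fin 3) (fun _ => 1)) g)

end Pool.Agent.TH954.X.We
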