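import Mathlib
import Pool.Agent.TH954.X2.WDefs

/-!
# Weierstrass curves: geometric irreducibility

`irr : T_irr`.
-/

set_option autoImplicit false

open MvPolynomial
open scoped Polynomial

namespace Pool.Agent.TH954.X.We

namespace Irr

open WeierstrassCurve.Affine

section

variable {F : Type} [Field F] (α β : F)

/-- the affine coordinate ring -/
abbrev S : Type := (curve α β).toAffine.CoordinateRing

/-- the coordinate `x` -/
noncomputable def xS : S α β :=
  CoordinateRing.mk (curve α β).toAffine (Polynomial.C Polynomial.X)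

/-- the coordinate `y` -/
noncomputable def yS : S α β := CoordinateRing.mk (curve α β).toAffine Polynomial.X

lemma eqS : yS α β ^ 2 =
    xS α β ^ 3 + algebraMap F (S α β) α * xS α β + algebraMap F (S α β) β := by
  have h : (AdjoinRoot.mk (curve α β).toAffine.polynomial) (Polynomial.X ^ 2) =
      (AdjoinRoot.mk (curve α β).toAffine.polynomial) (Polynomial.C (Polynomial.X ^ 3 +
        Polynomial.C α * Polynomial.X + Polynomial.C β)) := by
    refine AdjoinRoot.mk_eq_mk.mpr ⟨1, ?_⟩
    rw [WeierstrassCurve.Affine.polynomial]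
    simp [curve, WeierstrassCurve.toAffine]
  unfold xS yS
  rw [← map_pow]
  refine h.trans ?_
  simp only [map_add, map_mul, map_pow]
  rfl

/-- evaluation at a point of the curve -/
noncomputable def evP {F' : Type} [Field F'] [Algebra F F'] (x y : F')
    (h : y ^ 2 = x ^ 3 + algebraMap F F' α * x + algebraMap F F' β) : S α β →ₐ[F] F' :=
  AdjoinRoot.liftAlgHom _ (Polynomial.aeval x) y (by
    rw [WeierstrassCurve.Affine.polynomial]
    simp [curve, WeierstrassCurve.toAffine, Polynomial.eval₂_add, Polynomial.eval₂_sub,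
      Polynomial.eval₂_pow, h])

lemma evP_x {F' : Type} [Field F'] [Algebra F F'] (x y : F')
    (h : y ^ 2 = x ^ 3 + algebraMap F F' α * x + algebraMap F F' β) :
    evP α β x y h (xS α β) = x := by
  unfold evP xS
  rw [AdjoinRoot.liftAlgHom_mk]
  simp

lemma evP_y {F' : Type} [Field F'] [Algebra F F'] (x y : F')
    (h : y ^ 2 = x ^ 3 + algebraMap F F' α * x + algebraMap F F' β) :
    evP α β x y h (yS α β) = y := by
  unfold evP yS
  rw [AdjoinRoot.liftAlgHom_mk]
  simp

/-- the pole order at infinity -/
noncomputable def val (u : S α β) : WithBot ℕ := (Algebra.norm F[X] u).degree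

variable {α β}

lemma val_mul (u v : S α β) : val α β (u * v) = val α β u + val α β v := by
  unfold val
  rw [map_mul, Polynomial.degree_mul]

lemma val_pow (u : S α β) (n : ℕ) : val α β (u ^ n) = n • val α β u := by
  unfold val
  rw [map_pow, Polynomial.degree_pow]

lemma val_C (c : F) (hc : c ≠ 0) : val α β (algebraMap F (S α β) c) = 0 := by
  have h := CoordinateRing.norm_smul_basis (W' := (curve α β).toAffine) (Polynomial.C c) 0
  have e : (Polynomial.C c : F[X]) • (1 : S α β) +
      (0 : F[X]) • (CoordinateRing.mk (curve α β).toAffine Polynomial.X) =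
      algebraMap F (S α β) c := by
    rw [zero_smul, add_zero, Algebra.smul_def, mul_one]
    rfl
  unfold val
  rw [← e, h]
  simp [hc]

lemma val_x : val α β (xS α β) = 2 := by
  have h := CoordinateRing.norm_smul_basis (W' := (curve α β).toAffine) Polynomial.X 0
  have e : (Polynomial.X : F[X]) • (1 : S α β) +
      (0 : F[X]) • (CoordinateRing.mk (curve α β).toAffine Polynomial.X) = xS α β := by
    rw [zero_smul, add_zero, Algebra.smul_def, mul_one]
    rfl
  unfold val
  rw [← e, h]
  simp

lemma val_y : val α β (yS α β) = 3 := by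
  have h := CoordinateRing.norm_smul_basis (W' := (curve α β).toAffine) 0 1
  have e : (0 : F[X]) • (1 : S α β) +
      (1 : F[X]) • (CoordinateRing.mk (curve α β).toAffine Polynomial.X) = yS α β := by
    rw [zero_smul, zero_add, one_smul]
    rfl
  unfold val
  rw [← e, h]
  have h3 : (Polynomial.X ^ 3 + Polynomial.C (curve α β).toAffine.a₂ * Polynomial.X ^ 2 +
      Polynomial.C (curve α β).toAffine.a₄ * Polynomial.X +
      Polynomial.C (curve α β).toAffine.a₆ : F[X]).degree = 3 := by
    rw [← one_mul (Polynomial.X ^ 3), ← Polynomial.C_1, Polynomial.degree_cubic (one_ne_zero' F)]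
  rw [zero_pow two_ne_zero, zero_mul, zero_mul, one_pow, one_mul, sub_zero, zero_sub,
    Polynomial.degree_neg, h3]

lemma val_add {n : WithBot ℕ} {u v : S α β} (hu : val α β u < n) (hv : val α β v < n) :
    val α β (u + v) < n := by
  obtain ⟨p, q, rfl⟩ := CoordinateRing.exists_smul_basis_eq u
  obtain ⟨p', q', rfl⟩ := CoordinateRing.exists_smul_basis_eq v
  unfold val at *
  rw [CoordinateRing.degree_norm_smul_basis] at hu hv
  have e : p • (1 : S α β) + q • CoordinateRing.mk (curve α β).toAffine Polynomial.X +
      (p' • (1 : S α β) + q' • CoordinateRing.mk (curve α β).toAffine Polynomial.X) =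
      (p + p') • (1 : S α β) +
        (q + q') • CoordinateRing.mk (curve α β).toAffine Polynomial.X := by
    rw [add_smul, add_smul]; abel
  rw [e, CoordinateRing.degree_norm_smul_basis]
  rw [max_lt_iff] at hu hv ⊢
  constructor
  · rcases le_total p.degree p'.degree with h | h
    · exact lt_of_le_of_lt (nsmul_le_nsmul_right
        ((Polynomial.degree_add_le p p').trans (max_le h le_rfl)) 2) hv.1
    · exact lt_of_le_of_lt (nsmul_le_nsmul_right
        ((Polynomial.degree_add_le p p').trans (max_le le_rfl h)) 2) hu.1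
  · rcases le_total q.degree q'.degree with h | h
    · exact lt_of_le_of_lt (add_le_add_left (nsmul_le_nsmul_right
        ((Polynomial.degree_add_le q q').trans (max_le h le_rfl)) 2) 3) hv.2
    · exact lt_of_le_of_lt (add_le_add_left (nsmul_le_nsmul_right
        ((Polynomial.degree_add_le q q').trans (max_le le_rfl h)) 2) 3) hu.2

lemma val_neg (u : S α β) : val α β (-u) = val α β u := by
  obtain ⟨p, q, rfl⟩ := CoordinateRing.exists_smul_basis_eq u
  unfold val
  have e : -(p • (1 : S α β) + q • CoordinateRing.mk (curve α β).toAffine Polynomial.X) =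
      (-p) • (1 : S α β) + (-q) • CoordinateRing.mk (curve α β).toAffine Polynomial.X := by
    rw [neg_smul, neg_smul]; abel
  rw [e, CoordinateRing.degree_norm_smul_basis, CoordinateRing.degree_norm_smul_basis,
    Polynomial.degree_neg, Polynomial.degree_neg]

lemma val_zero (n : ℕ) : val α β (0 : S α β) < n := by
  have : Module.Finite F[X] (S α β) :=
    Module.Finite.of_basis (CoordinateRing.basis (curve α β).toAffine)
  unfold val
  rw [Algebra.norm_zero, Polynomial.degree_zero]
  exact WithBot.bot_lt_coe n

/-- the monomials -/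
lemma val_mon (c : F) (hc : c ≠ 0) (i j : ℕ) :
    val α β (algebraMap F (S α β) c * (xS α β ^ i * yS α β ^ j)) =
      ((2 * i + 3 * j : ℕ) : WithBot ℕ) := by
  rw [val_mul, val_mul, val_pow, val_pow, val_C c hc, val_x, val_y]
  push_cast
  rw [zero_add, nsmul_eq_mul, nsmul_eq_mul]
  ring

/-- a form that vanishes at the generic point has no term `y ^ d` -/
lemma no_top {g : MvPolynomial (Fin 3) F} {d : ℕ} (hg : g.IsHomogeneous d)
    (h0 : aeval ![1, xS α β, yS α β] g = 0) : ∀ m ∈ g.support, m 0 ≠ 0 ∨ m 1 ≠ 0 := by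
  classical
  intro m hm
  by_contra hcon
  push Not at hcon
  have hdeg : ∀ m' ∈ g.support, m' 0 + m' 1 + m' 2 = d := by
    intro m' hm'
    have h1 := hg (mem_support_iff.1 hm')
    rw [Finsupp.weight_apply, Finsupp.sum_fintype _ _ (by simp)] at h1
    simpa [Fin.sum_univ_three] using h1
  have hm2 : m 2 = d := by have := hdeg m hm; omega
  rw [aeval_def, eval₂_eq', ← Finset.add_sum_erase _ _ hm] at h0
  have hterm : ∀ m' : Fin 3 →₀ ℕ, algebraMap F (S α β) (coeff m' g) *
      ∏ i, (![1, xS α β, yS α β] : Fin 3 → S α β) i ^ m' i =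
      algebraMap F (S α β) (coeff m' g) * (xS α β ^ m' 1 * yS α β ^ m' 2) := by
    intro m'
    rw [Fin.prod_univ_three]
    simp
  rw [hterm, hcon.2, hm2] at h0
  have hrest : val α β (∑ m' ∈ g.support.erase m, algebraMap F (S α β) (coeff m' g) *
      ∏ i, (![1, xS α β, yS α β] : Fin 3 → S α β) i ^ m' i) < ((3 * d : ℕ) : WithBot ℕ) := by
    refine Finset.sum_induction _ (fun u => val α β u < ((3 * d : ℕ) : WithBot ℕ))
      (fun u v hu hv => val_add hu hv) (val_zero _) ?_
    intro m' hm'
    rw [Finset.mem_erase] at hm'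
    rw [hterm, val_mon _ (mem_support_iff.1 hm'.2)]
    have h1 := hdeg m' hm'.2
    have h2 : ¬ (m' 0 = 0 ∧ m' 1 = 0) := by
      rintro ⟨k0, k1⟩
      apply hm'.1
      ext i
      fin_cases i
      · show m' 0 = m 0
        rw [k0, hcon.1]
      · show m' 1 = m 1
        rw [k1, hcon.2]
      · show m' 2 = m 2
        omega
    exact_mod_cast (by omega : 2 * m' 1 + 3 * m' 2 < 3 * d)
  have h2 := eq_neg_of_add_eq_zero_left h0
  have h3 := val_mon (α := α) (β := β) (coeff m g) (mem_support_iff.1 hm) 0 d
  rw [h2, val_neg] at h3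
  rw [h3] at hrest
  simp at hrest

/-- a form that vanishes at the generic point vanishes at all points -/
lemma vanish {K : Type} [Field K] {a b : K} [Algebra K F] {g : MvPolynomial (Fin 3) F} {d : ℕ}
    (hg : g.IsHomogeneous d)
    (h0 : aeval ![1, xS (algebraMap K F a) (algebraMap K F b),
      yS (algebraMap K F a) (algebraMap K F b)] g = 0)
    (F' : Type) [Field F'] [Algebra K F'] [Algebra F F'] [IsScalarTower K F F']
    (P : PtE (eqn a b) F') : aeval P.1 g = 0 := by
  obtain ⟨v, ⟨i, hi, hj⟩, hv⟩ := P
  show aeval v g = 0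
  have hv0 := hv 0
  have he : v 2 ^ 2 * v 0 - (v 1 ^ 3 + algebraMap K F' a * v 1 * v 0 ^ 2 +
      algebraMap K F' b * v 0 ^ 3) = 0 := by
    have := hv0
    unfold eqn at this
    simpa using this
  by_cases h00 : v 0 = 0
  · -- the point at infinity
    rw [h00] at he
    have h1 : v 1 = 0 := by
      have : v 1 ^ 3 = 0 := by linear_combination -he
      exact pow_eq_zero_iff (three_ne_zero) |>.1 this
    rw [aeval_def, eval₂_eq']
    refine Finset.sum_eq_zero fun m hm => ?_
    rcases no_top hg h0 m hm with k | k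
    · rw [Fin.prod_univ_three, h00, zero_pow k]; ring
    · rw [Fin.prod_univ_three, h1, zero_pow k]; ring
  · have h01 : v 0 = 1 := by
      have : i = 0 := by
        by_contra hne
        exact h00 (hj 0 (Fin.pos_of_ne_zero hne))
      rw [this] at hi
      exact hi
    rw [h01] at he
    have hE : v 2 ^ 2 = v 1 ^ 3 + algebraMap F F' (algebraMap K F a) * v 1 +
        algebraMap F F' (algebraMap K F b) := by
      rw [← IsScalarTower.algebraMap_apply, ← IsScalarTower.algebraMap_apply]
      linear_combination he
    have h2 := congrArg (evP (algebraMap K F a) (algebraMap K F b) (v 1) (v 2) hE) h0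
    rw [map_zero, comp_aeval_apply] at h2
    rw [← h2]
    congr 1
    congr 1
    funext j
    fin_cases j
    · simpa using h01
    · exact (evP_x _ _ (v 1) (v 2) hE).symm
    · exact (evP_y _ _ (v 1) (v 2) hE).symm

lemma ne_of_NonZ {K : Type} [Field K] {a b : K} [Algebra K F] {g : MvPolynomial (Fin 3) F} {d : ℕ}
    (hg : g.IsHomogeneous d) (h : NonZ a b F g) :
    aeval ![1, xS (algebraMap K F a) (algebraMap K F b),
      yS (algebraMap K F a) (algebraMap K F b)] g ≠ 0 := by
  intro h0
  obtain ⟨F', _, _, _, _, P, hP⟩ := h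
  exact hP (vanish hg h0 F' P)

lemma NonZ_of_hom {K : Type} [Field K] {a b : K} [Algebra K F] {g : MvPolynomial (Fin 3) F}
    {F1 : Type} [Field F1] (hα : algebraMap K F a = α) (hβ : algebraMap K F b = β)
    (ψ : S α β →+* F1) (hinj : Function.Injective ψ)
    (h : aeval ![1, xS α β, yS α β] g ≠ 0) : NonZ a b F g := by
  let i2 : Algebra F F1 := (ψ.comp (algebraMap F (S α β))).toAlgebra
  let i4 : Algebra K F1 := ((ψ.comp (algebraMap F (S α β))).comp (algebraMap K F)).toAlgebra
  have i6 : IsScalarTower K F F1 := IsScalarTower.of_algebraMap_eq (fun _ => rfl)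
  let Ψ : S α β →ₐ[F] F1 := { ψ with commutes' := fun _ => rfl }
  have hΨ : ∀ u, Ψ u = ψ u := fun _ => rfl
  have hpt : Normed ![1, ψ (xS α β), ψ (yS α β)] ∧
      ∀ i, aeval ![1, ψ (xS α β), ψ (yS α β)] (eqn a b i) = 0 := by
    refine ⟨⟨0, rfl, fun j hj => absurd hj (Fin.not_lt_zero j)⟩, fun i => ?_⟩
    have e := congrArg ψ (eqS α β)
    rw [map_add, map_add, map_mul, map_pow, map_pow] at e
    have key : ∀ k : K, algebraMap K F1 k = ψ (algebraMap F (S α β) (algebraMap K F k)) :=
      fun _ => rfl
    have ea : algebraMap K F1 a = ψ (algebraMap F (S α β) α) := by rw [key, hα]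
    have eb : algebraMap K F1 b = ψ (algebraMap F (S α β) β) := by rw [key, hβ]
    unfold eqn
    simp only [map_sub, map_add, map_mul, map_pow, aeval_X, aeval_C]
    rw [ea, eb]
    simp only [Matrix.cons_val_zero, Matrix.cons_val_one, Matrix.cons_val]
    rw [e]
    ring
  refine ⟨F1, inferInstance, i4, i2, i6, ⟨_, hpt⟩, ?_⟩
  show aeval ![1, ψ (xS α β), ψ (yS α β)] g ≠ 0
  have h2 : aeval ![1, ψ (xS α β), ψ (yS α β)] g = Ψ (aeval ![1, xS α β, yS α β] g) := by
    rw [comp_aeval_apply]
    have h3 : (![1, ψ (xS α β), ψ (yS α β)] : Fin 3 → F1) =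
        fun i => Ψ ((![1, xS α β, yS α β] : Fin 3 → S α β) i) := by
      funext j
      fin_cases j
      · exact (map_one ψ).symm
      · rfl
      · rfl
    rw [h3]
  rw [h2, hΨ]
  intro h1
  exact h (hinj (h1.trans (map_zero ψ).symm))

lemma NonZ_of_ne {K : Type} [Field K] {a b : K} [Algebra K F] {g : MvPolynomial (Fin 3) F}
    (h : aeval ![1, xS (algebraMap K F a) (algebraMap K F b),
      yS (algebraMap K F a) (algebraMap K F b)] g ≠ 0) : NonZ a b F g :=
  NonZ_of_hom rfl rfl (algebraMap (S (algebraMap K F a) (algebraMap K F b))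
    (FractionRing (S (algebraMap K F a) (algebraMap K F b)))) (IsFractionRing.injective _ _) h

/-- a nonzero form in `z`, `x` does not vanish at the generic point -/
lemma form_ne {g : MvPolynomial (Option (Fin 1)) F} {d : ℕ} (hg : g.IsHomogeneous d)
    (hne : g ≠ 0) : aeval ![1, xS α β, yS α β]
      (rename (fun o => Option.elim o (0 : Fin 3) (fun _ => 1)) g) ≠ 0 := by
  classical
  rw [aeval_rename]
  set p : F[X] := aeval (fun o : Option (Fin 1) => Option.elim o 1 (fun _ => Polynomial.X)) g
    with hp
  have e1 : aeval ((![1, xS α β, yS α β] : Fin 3 → S α β) ∘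
      fun o : Option (Fin 1) => Option.elim o (0 : Fin 3) (fun _ => 1)) g =
      algebraMap F[X] (S α β) p := by
    have h2 := comp_aeval_apply (R := F) (φ := IsScalarTower.toAlgHom F F[X] (S α β))
      (f := fun o : Option (Fin 1) => Option.elim o 1 (fun _ => (Polynomial.X : F[X]))) g
    rw [IsScalarTower.coe_toAlgHom'] at h2
    rw [hp, h2]
    congr 1
    congr 1
    funext o
    cases o with
    | none => simp
    | some i => rfl
  rw [e1]
  have hinj : Function.Injective (algebraMap F[X] (S α β)) := FaithfulSMul.algebraMap_injective _ _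
  rw [Ne, map_eq_zero_iff _ hinj]
  -- `p ≠ 0`
  obtain ⟨m, hm⟩ := ne_zero_iff.1 hne
  have hdeg : ∀ m' ∈ g.support, m' none + m' (some 0) = d := by
    intro m' hm'
    have h1 := hg (mem_support_iff.1 hm')
    rw [Finsupp.weight_apply, Finsupp.sum_fintype _ _ (by simp)] at h1
    simpa [Fintype.sum_option] using h1
  intro h0
  have hc : p.coeff (m (some 0)) = coeff m g := by
    rw [hp, aeval_def, eval₂_eq', Polynomial.finsetSum_coeff, Finset.sum_eq_single m]
    · simp [Fintype.prod_option, Polynomial.coeff_X_pow, Polynomial.algebraMap_eq]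
    · intro m' hm' hmm
      have hd := hdeg m' hm'
      have hd' := hdeg m (mem_support_iff.2 hm)
      have : m' (some 0) ≠ m (some 0) := by
        intro h1
        apply hmm
        ext o
        cases o with
        | none => omega
        | some i =>
          have : i = 0 := Subsingleton.elim _ _
          rw [this]; exact h1
      simp [Fintype.prod_option, Polynomial.coeff_X_pow, Polynomial.algebraMap_eq, this.symm]
    · intro h1
      exact absurd (mem_support_iff.2 hm) h1
  rw [h0, Polynomial.coeff_zero] at hc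
  exact hm hc.symm

end

end Irr

/-- geometric irreducibility and independence of the coordinates `z`, `x` -/
theorem irr : T_irr := by
  intro K _ a b F _ _
  refine ⟨fun g h d e hg hh h1 h2 => ?_, fun g d hg hne => Irr.NonZ_of_ne (Irr.form_ne hg hne)⟩
  apply Irr.NonZ_of_ne
  rw [map_mul]
  exact mul_ne_zero (Irr.ne_of_NonZ hg h1) (Irr.ne_of_NonZ hh h2)

end Pool.Agent.TH954.X.We
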