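import Pool.Agent.TH954.X2.WLam
import Pool.Agent.TH954.X2.WDiv
import Pool.Agent.TH954.X2.WIrr
import Pool.Agent.TH954.X.Basic

/-!
# Weierstrass curves as examples of the structure `AbV`
-/

set_option autoImplicit false

open MvPolynomial

namespace Pool.Agent.TH954.X.We

section

variable {K : Type} [Field K] [CharZero K] (a b : K)

lemma coords_normed {F : Type} [Field F] {W : WeierstrassCurve F} (P : W.toAffine.Point) :
    Normed (coords P) := by
  rcases P with _ | ⟨x, y, h⟩
  · refine ⟨2, rfl, fun j hj => ?_⟩
    fin_cases j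
    · rfl
    · rfl
    · exact absurd hj (by decide)
  · refine ⟨0, rfl, fun j hj => ?_⟩
    exact absurd hj (by simp)

lemma coords_eqn {F : Type} [Field F] [Algebra K F]
    (P : (curve (algebraMap K F a) (algebraMap K F b)).toAffine.Point) (i : Fin 1) :
    aeval (coords P) (eqn a b i) = 0 := by
  rcases P with _ | ⟨x, y, h⟩
  · simp [eqn, coords]
  · have h1 := (WeierstrassCurve.Affine.equation_iff _ _).mp h.1
    simp only [curve] at h1
    simp only [eqn, coords, map_sub, map_mul, map_pow, map_add, aeval_X, aeval_C]
    simp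
    linear_combination h1

lemma coords_inj {F : Type} [Field F] {W : WeierstrassCurve F} :
    Function.Injective (coords : W.toAffine.Point → Fin 3 → F) := by
  intro P Q h
  rcases P with _ | ⟨x, y, hP⟩
  · rcases Q with _ | ⟨x', y', hQ⟩
    · rfl
    · have := congrFun h 0
      simp [coords] at this
  · rcases Q with _ | ⟨x', y', hQ⟩
    · have := congrFun h 0
      simp [coords] at this
    · have h1 := congrFun h 1
      have h2 := congrFun h 2
      simp [coords] at h1 h2
      subst h1
      subst h2
      rfl

/-- the point with given coordinates -/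
def toPt {F : Type} [Field F] [Algebra K F]
    (P : (curve (algebraMap K F a) (algebraMap K F b)).toAffine.Point) : PtE (eqn a b) F :=
  ⟨coords P, coords_normed P, coords_eqn a b P⟩

lemma toPt_bij (hD : 4 * a ^ 3 + 27 * b ^ 2 ≠ 0) {F : Type} [Field F] [Algebra K F] :
    Function.Bijective (toPt a b (F := F)) := by
  constructor
  · intro P Q h
    exact coords_inj (congrArg Subtype.val h)
  · rintro ⟨v, ⟨i, hi, hi'⟩, hv⟩
    have h0 := hv 0
    simp only [eqn, map_sub, map_mul, map_pow, map_add, aeval_X, aeval_C] at h0
    have hD' : 4 * (algebraMap K F a) ^ 3 + 27 * (algebraMap K F b) ^ 2 ≠ 0 := by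
      have h1 : algebraMap K F (4 * a ^ 3 + 27 * b ^ 2) ≠ 0 := by
        rw [Ne, map_eq_zero]
        exact hD
      rw [map_add, map_mul, map_mul, map_pow, map_pow, map_ofNat, map_ofNat] at h1
      exact h1
    have : CharZero F := charZero_of_injective_algebraMap (algebraMap K F).injective
    by_cases hz : v 0 = 0
    · have hx : v 1 = 0 := by
        rw [hz] at h0
        have h1 : v 1 ^ 3 = 0 := by linear_combination -h0
        exact pow_eq_zero_iff (by norm_num) |>.mp h1
      have hy : v 2 = 1 := by
        fin_cases i
        · rw [← hi]; simp at hz ⊢; simp [hz] at hi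
        · simp at hi; rw [hx] at hi; exact absurd hi zero_ne_one
        · exact hi
      refine ⟨0, Subtype.ext (funext fun j => ?_)⟩
      fin_cases j
      · exact hz.symm
      · exact hx.symm
      · exact hy.symm
    · have hz1 : v 0 = 1 := by
        have hi0 : i = 0 := by
          by_contra hne
          exact hz (hi' 0 (Fin.pos_of_ne_zero hne))
        rw [hi0] at hi
        exact hi
      rw [hz1] at h0
      have heq : (curve (algebraMap K F a) (algebraMap K F b)).toAffine.Equation (v 1) (v 2) := by
        rw [WeierstrassCurve.Affine.equation_iff]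
        simp only [curve]
        linear_combination h0
      have hns : (curve (algebraMap K F a) (algebraMap K F b)).toAffine.Nonsingular
          (v 1) (v 2) := by
        rw [WeierstrassCurve.Affine.nonsingular_iff]
        refine ⟨heq, ?_⟩
        by_contra hcon
        push Not at hcon
        obtain ⟨hc1, hc2⟩ := hcon
        simp only [curve] at hc1 hc2
        have hy0 : v 2 = 0 := by
          have h2 : (2 : F) * v 2 = 0 := by linear_combination hc2
          rcases mul_eq_zero.mp h2 with h3 | h3
          · exact absurd h3 two_ne_zero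
          · exact h3
        have hc1' : 3 * v 1 ^ 2 + algebraMap K F a = 0 := by
          linear_combination -hc1
        have h3 : v 1 ^ 3 + algebraMap K F a * v 1 + algebraMap K F b = 0 := by
          rw [hy0] at h0
          linear_combination -h0
        apply hD'
        have hb : algebraMap K F b = 2 * v 1 ^ 3 := by
          linear_combination h3 - v 1 * hc1'
        have ha : algebraMap K F a = -3 * v 1 ^ 2 := by linear_combination hc1'
        rw [ha, hb]
        ring
      refine ⟨.some (v 1) (v 2) hns, Subtype.ext (funext fun j => ?_)⟩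
      fin_cases j
      · exact hz1.symm
      · rfl
      · rfl

/-- the points of the projective curve and the points of Mathlib's Weierstrass curve -/
noncomputable def ptEquiv (hD : 4 * a ^ 3 + 27 * b ^ 2 ≠ 0) (F : Type) [Field F] [Algebra K F] :
    PtE (eqn a b) F ≃ (curve (algebraMap K F a) (algebraMap K F b)).toAffine.Point :=
  (Equiv.ofBijective _ (toPt_bij a b hD)).symm

lemma coords_ptEquiv (hD : 4 * a ^ 3 + 27 * b ^ 2 ≠ 0) (F : Type) [Field F] [Algebra K F]
    (P : PtE (eqn a b) F) : coords (ptEquiv a b hD F P) = P.1 := by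
  have h := (Equiv.ofBijective _ (toPt_bij a b hD (F := F))).apply_symm_apply P
  exact congrArg Subtype.val h

lemma ptEquiv_symm (hD : 4 * a ^ 3 + 27 * b ^ 2 ≠ 0) (F : Type) [Field F] [Algebra K F]
    (P : (curve (algebraMap K F a) (algebraMap K F b)).toAffine.Point) :
    ((ptEquiv a b hD F).symm P).1 = coords P := by
  rw [← coords_ptEquiv a b hD, Equiv.apply_symm_apply]

open Classical in
/-- the group structure -/
@[reducible] noncomputable def grpW (hD : 4 * a ^ 3 + 27 * b ^ 2 ≠ 0) (F : Type) [Field F] [Algebra K F] :
    AddCommGroup (PtE (eqn a b) F) :=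
  (ptEquiv a b hD F).addCommGroup

open Classical in
/-- Weierstrass curves are examples of the structure `AbV`, with the ring of endomorphisms `ℤ`. -/
noncomputable def weierstrass (hD : 4 * a ^ 3 + 27 * b ^ 2 ≠ 0) : AbV K 3 where
  e := 1
  eqn := eqn a b
  deg := fun _ => 3
  hom := by
    intro i
    unfold eqn
    refine IsHomogeneous.sub ?_ (IsHomogeneous.add ?_ ?_)
    · exact ((isHomogeneous_X _ _).pow 2).mul (isHomogeneous_X _ _)
    · refine IsHomogeneous.add ?_ ?_
      · simpa using (isHomogeneous_X K (1 : Fin 3)).pow 3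
      · simpa using ((isHomogeneous_C (Fin 3) a).mul (isHomogeneous_X K (1 : Fin 3))).mul
          ((isHomogeneous_X K (0 : Fin 3)).pow 2)
    · simpa using (isHomogeneous_C (Fin 3) b).mul ((isHomogeneous_X K (0 : Fin 3)).pow 3)
  grp := grpW a b hD
  Λ := (lam K a b hD).choose
  Λ_hom := (lam K a b hD).choose_spec.1
  Λ_spec := by
    intro F _ _ P Q
    obtain ⟨s, hs, h⟩ := (lam K a b hD).choose_spec.2 F (ptEquiv a b hD F P) (ptEquiv a b hD F Q)
    refine ⟨s, hs, fun i j => ?_⟩
    have h1 := h i j
    rw [coords_ptEquiv, coords_ptEquiv] at h1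
    rw [h1, ← ptEquiv_symm a b hD, ← ptEquiv_symm a b hD]
    rfl
  div := by
    intro F _ _ _ P m hm
    have : CharZero F := charZero_of_injective_algebraMap (algebraMap K F).injective
    have hD' : 4 * (algebraMap K F a) ^ 3 + 27 * (algebraMap K F b) ^ 2 ≠ 0 := by
      have h1 : algebraMap K F (4 * a ^ 3 + 27 * b ^ 2) ≠ 0 := by
        rw [Ne, map_eq_zero]
        exact hD
      rw [map_add, map_mul, map_mul, map_pow, map_pow, map_ofNat, map_ofNat] at h1
      exact h1
    obtain ⟨Q, hQ⟩ := div F _ _ hD' (ptEquiv a b hD F P) m hm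
    refine ⟨(ptEquiv a b hD F).symm Q, ?_⟩
    change (ptEquiv a b hD F).symm (m • ptEquiv a b hD F ((ptEquiv a b hD F).symm Q)) = P
    rw [Equiv.apply_symm_apply, hQ, Equiv.symm_apply_apply]
  dim := 1
  z0 := 0
  z := fun _ => 1
  R := ℤ
  ρ := 1
  ρ_pos := one_pos
  basis := Module.Basis.singleton (Fin 1) ℤ
  act := fun F _ _ => letI := grpW a b hD F; Int.castRingHom (AddMonoid.End (PtE (eqn a b) F))
  act_forms := by
    intro i
    refine ⟨1, {fun c => X c}, ?_, ?_⟩
    · intro C hC c
      rw [Finset.mem_singleton] at hC
      rw [hC]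
      exact isHomogeneous_X _ _
    · intro F _ _ P
      constructor
      · intro C hC
        rw [Finset.mem_singleton] at hC
        refine ⟨1, ?_⟩
        rw [hC, one_smul, Module.Basis.singleton_apply, map_one]
        funext c
        simp
      · obtain ⟨c, hc, -⟩ := P.2.1
        refine ⟨_, Finset.mem_singleton_self _, c, ?_⟩
        rw [aeval_X, hc]
        exact one_ne_zero
  irr := fun F _ _ g h d e hg hh hg' hh' => (irr K a b F).1 g h d e hg hh hg' hh'
  ind := fun F _ _ g d hg hg0 => (irr K a b F).2 g d hg hg0

/-- the example, with the isomorphism with the group of points of Mathlib's Weierstrass curve -/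
theorem exists_weierstrass (hD : 4 * a ^ 3 + 27 * b ^ 2 ≠ 0) :
    ∃ A : AbV K 3, A.dim = 1 ∧ A.ρ = 1 ∧
      ∀ (F : Type) [Field F] [DecidableEq F] [Algebra K F],
        ∃ e : A.Pt F ≃+ (curve (algebraMap K F a) (algebraMap K F b)).toAffine.Point,
          ∀ P : A.Pt F, P.1 = coords (e P) := by
  refine ⟨weierstrass a b hD, rfl, rfl, fun F _ iD _ => ?_⟩
  have hi : iD = fun x y => Classical.propDecidable (x = y) := Subsingleton.elim _ _
  subst hi
  classical
  exact ⟨AddEquiv.mk (ptEquiv a b hD F) (fun P Q => (ptEquiv a b hD F).apply_symm_apply _),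
    fun P => (coords_ptEquiv a b hD F P).symm⟩

end

end Pool.Agent.TH954.X.We
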