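import Pool.Agent.TH954.X2.PadDefs

/-!
# Adding zero coordinates (helper626, for helper954)
-/

set_option autoImplicit false

open MvPolynomial

namespace Pool.Agent.TH954.X

namespace Pad

variable {K : Type} [Field K] {n n' : ℕ}

/-- extension by zero -/
def ext0 (n' : ℕ) {F : Type} [Zero F] (u : Fin n → F) : Fin n' → F :=
  fun c => if h : c.1 < n then u ⟨c.1, h⟩ else 0

theorem ext0_cast {F : Type} [Zero F] (h : n ≤ n') (u : Fin n → F) (c : Fin n) :
    ext0 n' u (Fin.castLE h c) = u c := by
  simp [ext0]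

theorem ext0_res {F : Type} [Zero F] (h : n ≤ n') (v : Fin n' → F)
    (hv : ∀ c : Fin n', n ≤ c.1 → v c = 0) :
    ext0 n' (fun c => v (Fin.castLE h c)) = v := by
  funext c
  by_cases hc : c.1 < n
  · simp only [ext0, hc, dif_pos]
    rfl
  · simp only [ext0, hc, dif_neg, not_false_iff]
    exact (hv c (by omega)).symm

/-- the equations -/
noncomputable def eqnP (h : n ≤ n') {e : ℕ} (eqn : Fin e → MvPolynomial (Fin n) K) :
    Fin (e + n') → MvPolynomial (Fin n') K :=
  Fin.addCases (fun i => rename (Fin.castLE h) (eqn i)) (fun c => if n ≤ c.1 then X c else 0)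

theorem eqnP_left (h : n ≤ n') {e : ℕ} (eqn : Fin e → MvPolynomial (Fin n) K) (i : Fin e) :
    eqnP h eqn (Fin.castAdd n' i) = rename (Fin.castLE h) (eqn i) := by
  simp [eqnP]

theorem eqnP_right (h : n ≤ n') {e : ℕ} (eqn : Fin e → MvPolynomial (Fin n) K) (c : Fin n') :
    eqnP h eqn (Fin.natAdd e c) = if n ≤ c.1 then X c else 0 := by
  simp [eqnP]

theorem pt_zero (h : n ≤ n') {e : ℕ} (eqn : Fin e → MvPolynomial (Fin n) K)
    {F : Type} [Field F] [Algebra K F] {v : Fin n' → F}
    (hv : ∀ i, aeval v (eqnP h eqn i) = 0) (c : Fin n') (hc : n ≤ c.1) : v c = 0 := by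
  have := hv (Fin.natAdd e c)
  rw [eqnP_right, if_pos hc, aeval_X] at this
  exact this

/-- the points -/
def ptEquiv (h : n ≤ n') {e : ℕ} (eqn : Fin e → MvPolynomial (Fin n) K)
    (F : Type) [Field F] [Algebra K F] : PtE (eqnP h eqn) F ≃ PtE eqn F where
  toFun v := ⟨fun c => v.1 (Fin.castLE h c), by
    obtain ⟨v, ⟨i, hi1, hi2⟩, hv⟩ := v
    have hin : i.1 < n := by
      by_contra hc
      have := pt_zero h eqn hv i (by omega)
      rw [this] at hi1
      exact zero_ne_one hi1
    refine ⟨⟨⟨i.1, hin⟩, hi1, fun j hj => hi2 _ ?_⟩, fun j => ?_⟩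
    · exact hj
    · have := hv (Fin.castAdd n' j)
      rw [eqnP_left, aeval_rename] at this
      exact this⟩
  invFun u := ⟨ext0 n' u.1, by
    obtain ⟨u, ⟨i, hi1, hi2⟩, hu⟩ := u
    refine ⟨⟨Fin.castLE h i, by rw [ext0_cast]; exact hi1, fun j hj => ?_⟩, fun j => ?_⟩
    · have hj1 : j.1 < i.1 := hj
      have hj2 : j.1 < n := by omega
      simp only [ext0, hj2, dif_pos]
      exact hi2 _ hj1
    · refine Fin.addCases (fun j => ?_) (fun c => ?_) j
      · rw [eqnP_left, aeval_rename]
        have : (ext0 n' u ∘ Fin.castLE h) = u := funext fun c => ext0_cast h u c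
        rw [this]
        exact hu j
      · rw [eqnP_right]
        split_ifs with hc
        · rw [aeval_X]
          have : ¬ c.1 < n := by omega
          simp [ext0, this]
        · exact map_zero _⟩
  left_inv v := by
    apply Subtype.ext
    exact ext0_res h v.1 (fun c hc => pt_zero h eqn v.2.2 c hc)
  right_inv u := by
    apply Subtype.ext
    funext c
    exact ext0_cast h u.1 c

theorem ptEquiv_val (h : n ≤ n') {e : ℕ} (eqn : Fin e → MvPolynomial (Fin n) K)
    (F : Type) [Field F] [Algebra K F] (P : PtE (eqnP h eqn) F) :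
    P.1 = ext0 n' (ptEquiv h eqn F P).1 :=
  (ext0_res h P.1 (fun c hc => pt_zero h eqn P.2.2 c hc)).symm

/-- padding forms in several groups of variables -/
noncomputable def ren (h : n ≤ n') {ι : Type} (f : MvPolynomial (ι × Fin n) K) :
    MvPolynomial (ι × Fin n') K :=
  rename (Prod.map id (Fin.castLE h)) f

theorem ev_ren (h : n ≤ n') {ι : Type} (f : MvPolynomial (ι × Fin n) K)
    {F : Type} [Field F] [Algebra K F] (u : ι → Fin n → F) :
    ev (ren h f) (fun i => ext0 n' (u i)) = ev f u := by
  unfold ev ren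
  rw [aeval_rename]
  congr 2
  funext p
  exact ext0_cast h (u p.1) p.2

theorem MH_ren (h : n ≤ n') {ι : Type} (d : ι → ℕ) {f : MvPolynomial (ι × Fin n) K} (hf : MH d f) :
    MH d (ren h f) := by
  classical
  have hinj : Function.Injective (Prod.map (id : ι → ι) (Fin.castLE h)) :=
    Function.injective_id.prodMap (Fin.castLE_injective h)
  intro m hm j
  unfold ren at hm
  rw [support_rename_of_injective hinj, Finset.mem_image] at hm
  obtain ⟨m0, hm0, rfl⟩ := hm
  rw [← hf m0 hm0 j]
  symm
  refine Fintype.sum_of_injective (Fin.castLE h) (Fin.castLE_injective h) _ _ ?_ ?_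
  · intro c hc
    apply Finsupp.mapDomain_of_notMem_range
    rintro ⟨p, hp⟩
    apply hc
    exact ⟨p.2, congrArg Prod.snd hp⟩
  · intro c
    exact (Finsupp.mapDomain_apply hinj m0 (j, c)).symm

/-- restriction of a form -/
noncomputable def resP (n : ℕ) {n' : ℕ} {F : Type} [Field F] (g : MvPolynomial (Fin n') F) :
    MvPolynomial (Fin n) F :=
  aeval (ext0 n' (fun c : Fin n => (X c : MvPolynomial (Fin n) F))) g

theorem aeval_resP {F F' : Type} [Field F] [Field F'] [Algebra F F'] (g : MvPolynomial (Fin n') F)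
    (u : Fin n → F') : aeval u (resP n g) = aeval (ext0 n' u) g := by
  unfold resP
  have : (aeval u : MvPolynomial (Fin n) F →ₐ[F] F').comp
      (aeval (ext0 n' (fun c : Fin n => (X c : MvPolynomial (Fin n) F)))) = aeval (ext0 n' u) := by
    apply MvPolynomial.algHom_ext
    intro c
    simp only [AlgHom.comp_apply, aeval_X, ext0]
    split_ifs
    · rw [aeval_X]
    · rw [map_zero]
  exact DFunLike.congr_fun this g

theorem resP_hom {F : Type} [Field F] {g : MvPolynomial (Fin n') F} {a : ℕ}
    (hg : g.IsHomogeneous a) : (resP n g).IsHomogeneous a := by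
  have := hg.aeval (ext0 n' (fun c : Fin n => (X c : MvPolynomial (Fin n) F))) (n := 1) (by
    intro c
    simp only [ext0]
    split_ifs
    · exact isHomogeneous_X _ _
    · exact isHomogeneous_zero _ _ _)
  rwa [one_mul] at this

theorem resP_rename {F : Type} [Field F] (h : n ≤ n') {ι : Type} (g : MvPolynomial ι F)
    (f : ι → Fin n) : resP n (rename (fun i => Fin.castLE h (f i)) g) = rename f g := by
  unfold resP
  rw [aeval_rename, rename_eq_aeval]
  congr 2
  funext i
  exact ext0_cast h _ _

/-- the transported group structure -/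
noncomputable instance grpP (h : n ≤ n') (A : AbR K n) (F : Type) [Field F] [Algebra K F] :
    AddCommGroup (PtE (eqnP h A.eqn) F) :=
  (ptEquiv h A.eqn F).addCommGroup

/-- the isomorphism of the groups of points -/
noncomputable def ptAdd (h : n ≤ n') (A : AbR K n) (F : Type) [Field F] [Algebra K F] :
    PtE (eqnP h A.eqn) F ≃+ A.Pt F :=
  { ptEquiv h A.eqn F with
    map_add' := fun _ _ => (ptEquiv h A.eqn F).apply_symm_apply _ }

theorem ptAdd_val (h : n ≤ n') (A : AbR K n) (F : Type) [Field F] [Algebra K F]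
    (P : PtE (eqnP h A.eqn) F) : P.1 = ext0 n' (ptAdd h A F P).1 :=
  ptEquiv_val h A.eqn F P

theorem ptAdd_symm_val (h : n ≤ n') (A : AbR K n) (F : Type) [Field F] [Algebra K F]
    (P : A.Pt F) : ((ptAdd h A F).symm P).1 = ext0 n' P.1 := rfl

/-- the action of the ring -/
noncomputable def actP (h : n ≤ n') (A : AbR K n) (F : Type) [Field F] [Algebra K F] :
    A.R →+* AddMonoid.End (PtE (eqnP h A.eqn) F) where
  toFun r := (ptAdd h A F).symm.toAddMonoidHom.comp
    ((A.end' F r).comp (ptAdd h A F).toAddMonoidHom)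
  map_one' := by
    ext1 P
    have h1 : A.end' F 1 = 1 := map_one (A.act F)
    simp only [h1]
    exact (ptAdd h A F).symm_apply_apply P
  map_mul' x y := by
    ext1 P
    have h1 : A.end' F (x * y) = A.end' F x * A.end' F y := map_mul (A.act F) x y
    simp only [h1]
    change (ptAdd h A F).symm (A.end' F x (A.end' F y (ptAdd h A F P))) =
      (ptAdd h A F).symm (A.end' F x (ptAdd h A F ((ptAdd h A F).symm
        (A.end' F y (ptAdd h A F P)))))
    rw [(ptAdd h A F).apply_symm_apply]
  map_zero' := by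
    ext1 P
    have h1 : A.end' F 0 = 0 := map_zero (A.act F)
    simp only [h1]
    exact map_zero (ptAdd h A F).symm
  map_add' x y := by
    ext1 P
    have h1 : A.end' F (x + y) = A.end' F x + A.end' F y := map_add (A.act F) x y
    simp only [h1]
    exact map_add (ptAdd h A F).symm _ _

theorem actP_val (h : n ≤ n') (A : AbR K n) (F : Type) [Field F] [Algebra K F] (r : A.R)
    (P : PtE (eqnP h A.eqn) F) : (actP h A F r P).1 = ext0 n' (A.end' F r (ptAdd h A F P)).1 := rfl

/-- padding a family of forms -/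
noncomputable def padC (h : n ≤ n') (C : Fin n → MvPolynomial (Fin n) K) :
    Fin n' → MvPolynomial (Fin n') K :=
  fun c => rename (Fin.castLE h) (ext0 n' C c)

theorem aeval_padC (h : n ≤ n') (C : Fin n → MvPolynomial (Fin n) K) {F : Type} [Field F]
    [Algebra K F] (u : Fin n → F) (c : Fin n') :
    aeval (ext0 n' u) (padC h C c) = ext0 n' (fun c => aeval u (C c)) c := by
  unfold padC
  rw [aeval_rename]
  have : (ext0 n' u ∘ Fin.castLE h) = u := funext fun c => ext0_cast h u c
  rw [this]
  simp only [ext0]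
  split_ifs
  · rfl
  · exact map_zero _

/-- the structure `AbR` -/
noncomputable def padR (h : n ≤ n') (A : AbR K n) : AbR K n' where
  e := A.e + n'
  eqn := eqnP h A.eqn
  deg := Fin.addCases A.deg (fun _ => 1)
  hom := by
    intro i
    refine Fin.addCases (fun i => ?_) (fun c => ?_) i
    · rw [eqnP_left, Fin.addCases_left]
      exact (A.hom i).rename_isHomogeneous
    · rw [eqnP_right, Fin.addCases_right]
      split_ifs
      · exact isHomogeneous_X _ _
      · exact isHomogeneous_zero _ _ _
  grp F _ _ := grpP h A F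
  Λ i j := if hi : i.1 < n then if hj : j.1 < n then ren h (A.Λ ⟨i.1, hi⟩ ⟨j.1, hj⟩) else 0 else 0
  Λ_hom := by
    intro i j
    split_ifs
    · exact MH_ren h _ (A.Λ_hom _ _)
    · intro m hm
      simp at hm
    · intro m hm
      simp at hm
  Λ_spec := by
    intro F _ _ P Q
    obtain ⟨s, hs, hΛ⟩ := A.Λ_spec F (ptAdd h A F P) (ptAdd h A F Q)
    refine ⟨s, hs, fun i j => ?_⟩
    have h1 : ((grpP h A F).add P Q).1 =
      ext0 n' ((A.grp F).add (ptAdd h A F P) (ptAdd h A F Q)).1 := rfl
    have h2 : ((grpP h A F).sub P Q).1 =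
      ext0 n' ((A.grp F).sub (ptAdd h A F P) (ptAdd h A F Q)).1 := rfl
    have h3 : (![P.1, Q.1] : Fin 2 → Fin n' → F) =
        fun i => ext0 n' ((![(ptAdd h A F P).1, (ptAdd h A F Q).1] : Fin 2 → Fin n → F) i) := by
      funext i
      fin_cases i
      · exact ptAdd_val h A F P
      · exact ptAdd_val h A F Q
    rw [h1, h2, h3]
    by_cases hi : i.1 < n
    · by_cases hj : j.1 < n
      · rw [dif_pos hi, dif_pos hj, ev_ren, hΛ]
        simp only [ext0, dif_pos hi, dif_pos hj]
      · rw [dif_pos hi, dif_neg hj]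
        simp only [ext0, dif_pos hi, dif_neg hj, mul_zero]
        exact map_zero _
    · rw [dif_neg hi]
      simp only [ext0, dif_neg hi, mul_zero, zero_mul]
      exact map_zero _
  div := by
    intro F _ _ _ P m hm
    obtain ⟨Q, hQ⟩ := A.div F (ptAdd h A F P) m hm
    refine ⟨(ptAdd h A F).symm Q, ?_⟩
    apply (ptAdd h A F).injective
    have h1 : ptAdd h A F (m • (ptAdd h A F).symm Q) = m • ptAdd h A F ((ptAdd h A F).symm Q) :=
      map_nsmul _ _ _
    rw [(ptAdd h A F).apply_symm_apply] at h1
    exact h1.trans hQ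
  dim := A.dim
  z0 := Fin.castLE h A.z0
  z := fun i => Fin.castLE h (A.z i)
  R := A.R
  ρ := A.ρ
  ρ_pos := A.ρ_pos
  basis := A.basis
  act F _ _ := actP h A F
  act_forms := by
    classical
    intro a
    obtain ⟨D, Fam, hhom, hF⟩ := A.act_forms a
    refine ⟨D, Fam.image (padC h), ?_, ?_⟩
    · intro C' hC' c
      obtain ⟨C, hC, rfl⟩ := Finset.mem_image.1 hC'
      unfold padC
      apply IsHomogeneous.rename_isHomogeneous
      simp only [ext0]
      split_ifs
      · exact hhom C hC _
      · exact isHomogeneous_zero _ _ _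
    · intro F _ _ P
      obtain ⟨h1, C, hC, c, hc⟩ := hF F (ptAdd h A F P)
      have hP := ptAdd_val h A F P
      refine ⟨?_, padC h C, Finset.mem_image_of_mem _ hC, Fin.castLE h c, ?_⟩
      · intro C' hC'
        obtain ⟨C, hC, rfl⟩ := Finset.mem_image.1 hC'
        obtain ⟨s, hs⟩ := h1 C hC
        refine ⟨s, ?_⟩
        rw [actP_val, hP]
        funext c
        rw [aeval_padC, hs]
        simp only [ext0, Pi.smul_apply]
        split_ifs
        · rfl
        · exact (smul_zero s).symm
      · rw [hP, aeval_padC, ext0_cast]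
        exact hc

theorem nonZ_iff (h : n ≤ n') (A : AbR K n) (F : Type) [Field F] [Algebra K F]
    (g : MvPolynomial (Fin n') F) : (padR h A).NonZ F g ↔ A.NonZ F (resP n g) := by
  constructor
  · rintro ⟨F', i1, i2, i3, i4, P, hP⟩
    refine ⟨F', i1, i2, i3, i4, ptAdd h A F' P, ?_⟩
    rw [aeval_resP, ← ptAdd_val h A F' P]
    exact hP
  · rintro ⟨F', i1, i2, i3, i4, P, hP⟩
    refine ⟨F', i1, i2, i3, i4, (ptAdd h A F').symm P, ?_⟩
    rw [aeval_resP] at hP
    exact hP

/-- the structure `AbV` -/
noncomputable def padV (h : n ≤ n') (A : AbV K n) : AbV K n' where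
  toAbR := padR h A.toAbR
  irr := by
    intro F _ _ g g' a b hg hg' h1 h2
    rw [nonZ_iff] at h1 h2 ⊢
    have h3 := A.irr F _ _ a b (resP_hom hg) (resP_hom hg') h1 h2
    have h4 : resP n (g * g') = resP n g * resP n g' := map_mul _ _ _
    rw [h4]
    exact h3
  ind := by
    intro F _ _ g a hg hg0
    rw [nonZ_iff]
    have h1 := A.ind F g a hg hg0
    have h2 : (fun o : Option (Fin (padR h A.toAbR).dim) =>
        Option.elim o (padR h A.toAbR).z0 (padR h A.toAbR).z) =
        fun o => Fin.castLE h (Option.elim o A.z0 A.z) := by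
      funext o
      cases o <;> rfl
    rw [h2]
    have h3 := resP_rename h g (fun o => Option.elim o A.z0 A.z)
    exact h3 ▸ h1

end Pad

/-- **Target.** -/
theorem pad : T_pad := by
  intro K _ n n' h A
  refine ⟨Pad.padV h A, rfl, rfl, fun F _ _ => ⟨Pad.ptAdd h A.toAbR F, fun P c => ?_⟩⟩
  exact congrFun (Pad.ptAdd_val h A.toAbR F P) c

end Pool.Agent.TH954.X
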