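import Pool.Agent.TH954.X.LatU

/-!
# The quadratic version of the geometry of numbers follows from the linear version
-/

set_option autoImplicit false

namespace Pool.Agent.TH954.X

lemma sum_sq_le_sq_sum' {ι : Type} (s : Finset ι) (a : ι → ℝ) (ha : ∀ i ∈ s, 0 ≤ a i) :
    ∑ i ∈ s, a i ^ 2 ≤ (∑ i ∈ s, a i) ^ 2 := by
  classical
  rw [pow_two (∑ i ∈ s, a i), Finset.sum_mul]
  refine Finset.sum_le_sum (fun i hi => ?_)
  rw [pow_two]
  exact mul_le_mul_of_nonneg_left (Finset.single_le_sum ha hi) (ha i hi)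

theorem latT_of_latU (hU : T_latU) : T_latT := by
  intro s κ hκ ε hε
  obtain ⟨c, hc, hU⟩ := hU s κ hκ (√ε) (Real.sqrt_pos.mpr hε)
  refine ⟨c ^ 2 / 2 ^ κ, by positivity, fun T hT => ?_⟩
  obtain ⟨H, D, hHD⟩ := hU (√T) (Real.one_le_sqrt.mpr hT)
  refine ⟨H, D ^ 2, fun n M hM hn => ?_⟩
  have hM0 : 0 < M := by linarith
  have hT0 : 0 ≤ T := by linarith
  obtain ⟨u, hu, huH, d, hdD, h1, h2, h3⟩ := hHD (fun l j => n l j / M) (by
    intro l j
    rw [abs_div, abs_of_pos hM0, div_le_one hM0]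
    exact hn l j)
  refine ⟨u, hu, huH, fun l => d l ^ 2, fun l => Nat.pow_le_pow_left (hdD l) 2, ?_, ?_, ?_⟩
  · have h4 : ∀ l, ((d l ^ 2 : ℕ) : ℝ) * ∑ t, (u l t : ℝ) ^ 2 ≤
        ((d l : ℝ) * ∑ t, |(u l t : ℝ)|) ^ 2 := by
      intro l
      rw [mul_pow]
      push_cast
      refine mul_le_mul_of_nonneg_left ?_ (sq_nonneg _)
      refine le_trans (le_of_eq ?_) (sum_sq_le_sq_sum' _ _ (fun t _ => abs_nonneg _))
      exact Finset.sum_congr rfl (fun t _ => (sq_abs _).symm)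
    refine (Finset.sum_le_sum (fun l _ => h4 l)).trans ?_
    have h5 : ∀ l ∈ (Finset.univ : Finset (Fin κ)), 0 ≤ (d l : ℝ) * ∑ t, |(u l t : ℝ)| :=
      fun l _ => mul_nonneg (Nat.cast_nonneg _) (Finset.sum_nonneg (fun _ _ => abs_nonneg _))
    refine (sum_sq_le_sq_sum' _ _ h5).trans ?_
    calc _ ≤ (√T) ^ 2 := pow_le_pow_left₀ (Finset.sum_nonneg h5) h1 2
      _ = T := Real.sq_sqrt hT0
  · have h4 : (c * √T ^ κ) ^ 2 ≤ (√T ^ s * ∏ l, ((d l : ℝ) + 1)) ^ 2 :=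
      pow_le_pow_left₀ (by positivity) h2 2
    have h5 : ∀ j : ℕ, (√T ^ j) ^ 2 = T ^ j := by
      intro j
      rw [← pow_mul, mul_comm j 2, pow_mul, Real.sq_sqrt hT0]
    rw [mul_pow, mul_pow, h5, h5, ← Finset.prod_pow] at h4
    have h6 : ∏ l, ((d l : ℝ) + 1) ^ 2 ≤ 2 ^ κ * ∏ l, (((d l ^ 2 : ℕ) : ℝ) + 1) := by
      have h7 : (2 : ℝ) ^ κ * ∏ l, (((d l ^ 2 : ℕ) : ℝ) + 1) =
          ∏ l, (2 * (((d l ^ 2 : ℕ) : ℝ) + 1)) := by
        rw [Finset.prod_mul_distrib, Finset.prod_const, Finset.card_univ, Fintype.card_fin]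
      rw [h7]
      refine Finset.prod_le_prod (fun l _ => sq_nonneg _) (fun l _ => ?_)
      push_cast
      nlinarith [sq_nonneg ((d l : ℝ) - 1)]
    rw [div_mul_eq_mul_div, div_le_iff₀ (by positivity)]
    refine h4.trans ?_
    calc T ^ s * ∏ l, ((d l : ℝ) + 1) ^ 2 ≤ T ^ s * (2 ^ κ * ∏ l, (((d l ^ 2 : ℕ) : ℝ) + 1)) :=
          mul_le_mul_of_nonneg_left h6 (by positivity)
      _ = _ := by ring
  · have h4 : ∀ l, ((d l ^ 2 : ℕ) : ℝ) * ∑ i, (∑ t, (u l t : ℝ) * n i t) ^ 2 ≤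
        M ^ 2 * ((d l : ℝ) * ∑ i, |∑ t, (u l t : ℝ) * (n i t / M)|) ^ 2 := by
      intro l
      have h5 : ∀ i, ∑ t, (u l t : ℝ) * (n i t / M) = (∑ t, (u l t : ℝ) * n i t) / M := by
        intro i
        rw [Finset.sum_div]
        exact Finset.sum_congr rfl (fun t _ => by ring)
      have h6 : ∑ i, (∑ t, (u l t : ℝ) * n i t) ^ 2 =
          M ^ 2 * ∑ i, |∑ t, (u l t : ℝ) * (n i t / M)| ^ 2 := by
        rw [Finset.mul_sum]
        refine Finset.sum_congr rfl (fun i _ => ?_)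
        rw [h5, sq_abs, div_pow]
        field_simp
      rw [h6, mul_pow]
      push_cast
      calc (d l : ℝ) ^ 2 * (M ^ 2 * ∑ i, |∑ t, (u l t : ℝ) * (n i t / M)| ^ 2) =
          M ^ 2 * ((d l : ℝ) ^ 2 * ∑ i, |∑ t, (u l t : ℝ) * (n i t / M)| ^ 2) := by ring
        _ ≤ _ := by
          refine mul_le_mul_of_nonneg_left (mul_le_mul_of_nonneg_left ?_ (sq_nonneg _))
            (sq_nonneg _)
          exact sum_sq_le_sq_sum' _ _ (fun i _ => abs_nonneg _)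
    refine (Finset.sum_le_sum (fun l _ => h4 l)).trans ?_
    rw [← Finset.mul_sum, mul_comm ε]
    refine mul_le_mul_of_nonneg_left ?_ (sq_nonneg _)
    have h5 : ∀ l ∈ (Finset.univ : Finset (Fin κ)),
        0 ≤ (d l : ℝ) * ∑ i, |∑ t, (u l t : ℝ) * (n i t / M)| :=
      fun l _ => mul_nonneg (Nat.cast_nonneg _) (Finset.sum_nonneg (fun _ _ => abs_nonneg _))
    refine (sum_sq_le_sq_sum' _ _ h5).trans ?_
    calc _ ≤ (√ε) ^ 2 := pow_le_pow_left₀ (Finset.sum_nonneg h5) h3 2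
      _ = ε := Real.sq_sqrt hε.le

/-- the quadratic version -/
theorem latT' : T_latT := latT_of_latU latU

end Pool.Agent.TH954.X
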