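import Pool.Agent.TH954.X.Main3

/-!
# Varieties over products of blocks: subschemes contracted to small dimension
-/

set_option autoImplicit false
set_option linter.unusedSectionVars false

open MvPolynomial NumberField Height Pool.Agent.TH954.V

namespace Pool.Agent.TH954.X

section ext

variable {K : Type} [Field K] {n : ℕ} {ι : Type} [Fintype ι]

/-- a further vector and a family of vectors -/
def ext {F : Type} (t : Fin n → F) (u : ι → Fin n → F) : Option ι → Fin n → F :=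
  fun o => Option.elim o t u

/-- a polynomial in the groups `ι` as a polynomial in one more group -/
noncomputable def up (f : MvPolynomial (ι × Fin n) K) : MvPolynomial (Option ι × Fin n) K :=
  rename (fun p : ι × Fin n => (some p.1, p.2)) f

lemma ev_up {F : Type} [Field F] [Algebra K F] (f : MvPolynomial (ι × Fin n) K)
    (u : Option ι → Fin n → F) : ev (up f) u = ev f (fun i => u (some i)) := by
  unfold ev up
  rw [aeval_rename]
  rfl

/-- multidegrees in one more group -/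
def upd (d : ι → ℕ) : Option ι → ℕ := fun o => Option.elim o 0 d

lemma up_MH {d : ι → ℕ} {f : MvPolynomial (ι × Fin n) K} (hf : MH d f) :
    MH (upd d) (up f) := by
  classical
  intro m hm i
  have hinj : Function.Injective (fun p : ι × Fin n => ((some p.1 : Option ι), p.2)) := by
    intro p q h
    have h1 := (Prod.ext_iff.mp h).1
    have h2 := (Prod.ext_iff.mp h).2
    exact Prod.ext (Option.some_injective _ h1) h2
  unfold up at hm
  rw [support_rename_of_injective hinj] at hm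
  obtain ⟨m', hm', rfl⟩ := Finset.mem_image.mp hm
  rcases i with _ | i
  · refine Finset.sum_eq_zero (fun c _ => ?_)
    refine Finsupp.mapDomain_of_notMem_range _ _ ?_
    rintro ⟨p, hp⟩
    exact absurd (Prod.ext_iff.mp hp).1 (by simp)
  · have h1 : ∀ c, (Finsupp.mapDomain (fun p : ι × Fin n => ((some p.1 : Option ι), p.2)) m')
        (some i, c) = m' (i, c) := fun c =>
      Finsupp.mapDomain_apply hinj m' (i, c)
    simp_rw [h1]
    exact hf m' hm' i

open Classical in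
/-- a family in one more group -/
noncomputable def upF {κ : Type} (Fm : Finset (κ → MvPolynomial (ι × Fin n) K)) :
    Finset (κ → MvPolynomial (Option ι × Fin n) K) :=
  Fm.image (fun C c => up (C c))

lemma mem_upF {κ : Type} {Fm : Finset (κ → MvPolynomial (ι × Fin n) K)}
    {D : κ → MvPolynomial (Option ι × Fin n) K} :
    D ∈ upF Fm ↔ ∃ C ∈ Fm, (fun c => up (C c)) = D := by
  classical
  unfold upF
  rw [Finset.mem_image]

lemma Tg_upF {F : Type} [Field F] [Algebra K F] {κ : Type}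
    (Fm : Finset (κ → MvPolynomial (ι × Fin n) K)) (u : Option ι → Fin n → F)
    (t : κ → F) : Tg (upF Fm) u t ↔ Tg Fm (fun i => u (some i)) t := by
  classical
  unfold Tg upF
  refine and_congr Iff.rfl ⟨fun h C hC => ?_, fun h C hC => ?_⟩
  · obtain ⟨s, hs⟩ := h _ (Finset.mem_image_of_mem _ hC)
    refine ⟨s, ?_⟩
    rw [← hs]
    funext c
    rw [ev_up]
  · obtain ⟨C', hC', rfl⟩ := Finset.mem_image.mp hC
    obtain ⟨s, hs⟩ := h C' hC'
    refine ⟨s, ?_⟩
    rw [← hs]
    funext c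
    rw [ev_up]

/-- the equations of a closed subset of a product with one more group -/
noncomputable def wqU {E : Type} {q : ℕ} (wq : E → MvPolynomial (ι × Fin n) K)
    (g : Fin q → MvPolynomial (Option ι × Fin n) K) :
    E ⊕ Fin q → MvPolynomial (Option ι × Fin n) K :=
  Sum.elim (fun i => up (wq i)) g

lemma onS_wqU {E : Type} {q : ℕ} (wq : E → MvPolynomial (ι × Fin n) K)
    (g : Fin q → MvPolynomial (Option ι × Fin n) K) {F : Type} [Field F] [Algebra K F]
    (u : Option ι → Fin n → F) :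
    OnS (wqU wq g) u ↔ u none ≠ 0 ∧ OnS wq (fun i => u (some i)) ∧ ∀ i, ev (g i) u = 0 := by
  constructor
  · rintro ⟨h1, h2⟩
    refine ⟨h1 none, ⟨fun i => h1 (some i), fun i => ?_⟩, fun i => h2 (Sum.inr i)⟩
    have h3 := h2 (Sum.inl i)
    unfold wqU at h3
    rw [Sum.elim_inl, ev_up] at h3
    exact h3
  · rintro ⟨h1, ⟨h2, h3⟩, h4⟩
    refine ⟨?_, ?_⟩
    · rintro (_ | i)
      · exact h1
      · exact h2 i
    · rintro (i | i)
      · unfold wqU
        rw [Sum.elim_inl, ev_up]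
        exact h3 i
      · exact h4 i

/-- conditions in one more group -/
def UnU (Un : Cond K ι n) : Cond K (Option ι) n := fun L _ _ w u => Un L w (fun i => u (some i))

lemma LocF_upF {E : Type} {q : ℕ} (wq : E → MvPolynomial (ι × Fin n) K)
    (g : Fin q → MvPolynomial (Option ι × Fin n) K) (Un : Cond K ι n) {κ : Type} (σ : ι → ℕ)
    (Fm : Finset (κ → MvPolynomial (ι × Fin n) K)) (h : LocF wq Un σ Fm) :
    LocF (wqU wq g) (UnU Un) (upd σ) (upF Fm) := by
  classical
  obtain ⟨A, M, e', hM, hA⟩ := h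
  refine ⟨A, M, e', hM, fun L _ _ w u hu hUn t ht => ?_⟩
  obtain ⟨C, hC, s, hs, hle⟩ := hA L w (fun i => u (some i)) ((onS_wqU wq g u).mp hu).2.1 hUn t
    ((Tg_upF Fm u t).mp ht)
  refine ⟨_, Finset.mem_image_of_mem _ hC, s, ?_, ?_⟩
  · rw [← hs]
    funext c
    rw [ev_up]
  · rw [Fintype.prod_option]
    change (⨆ c, w (u none c)) ^ 0 * _ ≤ _
    rw [pow_zero, one_mul]
    exact hle

lemma nvW_up (L : Type) [Field L] [Algebra K L] (w : AbsoluteValue L ℝ) (σ : ι → ℕ)
    (f : MvPolynomial (ι × Fin n) K) (u : Option ι → Fin n → L) :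
    nvW w (upd σ) (up f) u = nvW w σ f (fun i => u (some i)) := by
  unfold nvW
  rw [ev_up, Fintype.prod_option]
  change _ / ((⨆ c, w (u none c)) ^ 0 * _) = _
  rw [pow_zero, one_mul]
  rfl

end ext

open Classical in
theorem main4 {K : Type} [Field K] [NumberField K] {n : ℕ} {β ι : Type} [Fintype β] [Fintype ι]
    {k : β → ℕ} (e : ((b : β) × Fin (k b)) ≃ ι) (B : β → Blk K n) (r : β → ℕ)
    (rk : ∀ b, RkC (B b) (k b))
    (Un : ∀ b, Cond K (Fin (k b)) n)
    (hmono : ∀ b (δ δ' : ℝ) (L : Type) [Field L] [NumberField L] [Algebra K L] (H : ℝ)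
      (P : Fin (k b) → (B b).Pt L), δ ≤ δ' → 0 ≤ H → rk b δ L H P → rk b δ' L H P)
    (hB : ∀ b, BlkOK2 (B b) (k b) (r b) (rk b) (Un b)) (hU : ∀ b, UnOK (B b) (k b) (Un b))
    (hbox : T_boxX) (hgen : GenX e B) (y : ℕ)
    (hy : y + ∑ b, r b * (B b).g < ∑ b, k b * (B b).g) {q s : ℕ}
    (g : Fin q → MvPolynomial (Option ι × Fin n) K) (hg : ∀ i, ∃ γ, MH γ (g i))
    (f : Fin s → MvPolynomial (Option ι × Fin n) K) (δ : Fin s → Option ι → ℕ)
    (hf : ∀ i, MH (δ i) (f i))
    (hdim : ∀ (F : Type) [Field F] [Algebra K F] (η : ∀ b, Fin (k b) → (B b).Pt F)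
      (t : Fin n → F), Normed t → (∀ i, ev (g i) (ext t (crd e B η)) = 0) →
      (∀ i, ev (f i) (ext t (crd e B η)) = 0) →
      Algebra.trdeg K (IntermediateField.adjoin K
        (Set.range (fun p : ι × Fin n => crd e B η p.1 p.2))) ≤ (y : Cardinal))
    (ε : ℝ) (hε : 0 < ε) :
    ∃ (Φ : MvPolynomial (ι × Fin n) K) (τ : ι → ℕ), MH τ Φ ∧
      (∃ (F : Type) (_ : Field F) (_ : Algebra K F) (P : ∀ b, Fin (k b) → (B b).Pt F),
        ev Φ (crd e B P) ≠ 0) ∧
      ∃ δ0 : ℝ, 0 < δ0 ∧ ∃ C : ℝ, ∀ (L : Type) [Field L] [NumberField L] [Algebra K L]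
        (P : ∀ b, Fin (k b) → (B b).Pt L) (t : Fin n → L), t ≠ 0 →
        (∀ i, ev (g i) (ext t (crd e B P)) = 0) →
        (∀ b, rk b δ0 L (Module.finrank ℚ L + ∑ i, logHeight (crd e B P i)) (P b)) →
        ev Φ (crd e B P) ≠ 0 →
        (∀ w : AbsoluteValue L ℝ, UnX e Un L w (crd e B P) →
          ∃ i, ev (f i) (ext t (crd e B P)) ≠ 0) ∧
        FS (fun w : AbsoluteValue L ℝ => if UnX e Un L w (crd e B P) then
          -Real.log (⨆ i, nvW w (δ i) (f i) (ext t (crd e B P))) else 0) ∧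
        hYX (UnU (UnX e Un)) f δ (ext t (crd e B P)) ≤
          ε * ∑ i, logHeight (crd e B P i) + C * Module.finrank ℚ L := by
  -- the Nullstellensatz
  have hwU : ∀ i, ∃ γ, MH γ (wqU (wqX (VX e B)) g i) := by
    rintro (i | i)
    · obtain ⟨γ, hγ⟩ := wqX_MH (VX e B) i
      exact ⟨_, up_MH hγ⟩
    · exact hg i
  obtain ⟨N, hN, t', F, iF, iA, η, hη0, hη1, hη2, hη3⟩ := nullW K (wqU (wqX (VX e B)) g)
    hwU f (fun i => ⟨δ i, hf i⟩)
  have hOnη : ∀ i, OnS (wqU (wqX (VX e B)) g) (η i) :=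
    fun i => ⟨fun j => (hη0 i j).ne_zero, hη1 i⟩
  have hext : ∀ i, ext (η i none) (fun l => η i (some l)) = η i := by
    intro i
    funext o
    rcases o with _ | l
    · rfl
    · rfl
  -- the points outside the zero set of the product of the forms `s0`
  have hpt : ∀ i : Fin t', ev (S0X e B) (fun l => η i (some l)) ≠ 0 →
      ∃ P : ∀ b, Fin (k b) → (B b).Pt (F i), crd e B P = fun l => η i (some l) := by
    intro i hi
    have h1 : ∀ l : ι, ∀ m : Fin (B (e.symm l).1).V.e,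
        aeval (η i (some l)) ((B (e.symm l).1).V.eqn m) = 0 := by
      intro l m
      have h2 := ((onS_wqU _ _ _).mp (hOnη i)).2.1.2 ⟨l, m⟩
      unfold wqX at h2
      rw [ev_rename] at h2
      exact h2
    have h2 : ∀ l : ι, ∃ P : (B (e.symm l).1).Pt (F i),
        (B (e.symm l).1).vec (F i) P = η i (some l) := by
      intro l
      refine ((B (e.symm l).1).s0_pt (F i) (η i (some l)) (hη0 i (some l)) (h1 l)).resolve_left ?_
      rw [ev_S0X] at hi
      exact Finset.prod_ne_zero_iff.mp hi l (Finset.mem_univ _)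
    have h3 : ∀ (b : β) (j : Fin (k b)), ∃ P : (B b).Pt (F i),
        (B b).vec (F i) P = η i (some (e ⟨b, j⟩)) := by
      intro b j
      have := h2 (e ⟨b, j⟩)
      rw [e.symm_apply_apply] at this
      exact this
    choose P hP using h3
    refine ⟨P, ?_⟩
    funext l
    have h4 := hP (e.symm l).1 (e.symm l).2
    have h5 : e ⟨(e.symm l).1, (e.symm l).2⟩ = l := e.apply_symm_apply l
    rw [h5] at h4
    exact h4
  let τS := {i : Fin t' // ev (S0X e B) (fun l => η i (some l)) ≠ 0}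
  choose Pη hPη using fun i : τS => hpt i.1 i.2
  obtain ⟨c, hc, hcount⟩ := countX (y := y) (fun i : τS => F i.1)
    (fun (i : τS) l => η i.1 (some l))
    (fun i => by
      have h1 := hdim (F i.1) (Pη i) (η i.1 none) (hη0 i.1 none)
        (fun l => by
          rw [hPη, hext]
          exact ((onS_wqU _ _ _).mp (hOnη i.1)).2.2 l)
        (fun l => by rw [hPη, hext]; exact hη2 i.1 l)
      rw [hPη] at h1
      exact h1)
  -- constants
  have hN0 : (0 : ℝ) < N := by exact_mod_cast hN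
  set Gs : ℝ := 1 + ∑ b, ((B b).g : ℝ) with hGs
  have hGs1 : 1 ≤ Gs := by
    have : 0 ≤ ∑ b, ((B b).g : ℝ) := Finset.sum_nonneg (fun _ _ => Nat.cast_nonneg _)
    linarith
  have hGs0 : 0 < Gs := by linarith
  set ε' : ℝ := ε / (N * Gs) with hε'
  have hε'0 : 0 < ε' := by positivity
  choose cb C1 hcb hB1 using fun b => hB b ε' hε'0
  set c2 : ℝ := ∑ b, ((B b).g : ℝ) * C1 b with hc2
  have hc20 : 0 ≤ c2 := Finset.sum_nonneg (fun b _ => by positivity)
  set c3 : ℝ := ∏ b, cb b ^ (B b).g with hc3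
  have hc30 : 0 < c3 := Finset.prod_pos (fun b _ => pow_pos (hcb b) _)
  obtain ⟨T, hT1, hT2⟩ := exists_T y c c3 c2 (Nat.cast_nonneg _) hc30 hc20
  have hT0 : 0 < T := by linarith
  choose I iI d σ Fam map hMH hrep hLoc hdeg hsol hprod δb hδb CT hCT0 hCT using
    fun b => hB1 b T hT1
  -- the data attached to a choice `p`
  let κd : (∀ b, I b) → ι → ℕ := fun p l => d (e.symm l).1 (p (e.symm l).1) (e.symm l).2
  let κg : ι → ℕ := fun l => (B (e.symm l).1).g
  let κσ : (∀ b, I b) → ι → ι → ℕ := fun p l =>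
    embd e (e.symm l).1 (σ (e.symm l).1 (p (e.symm l).1) (e.symm l).2)
  let κF : (∀ b, I b) → ι → Finset (Fin n → MvPolynomial (ι × Fin n) K) := fun p l =>
    embF e (e.symm l).1 (Fam (e.symm l).1 (p (e.symm l).1) (e.symm l).2)
  let κm : (∀ b, I b) → ∀ (F : Type) [Field F] [Algebra K F],
      (∀ b, Fin (k b) → (B b).Pt F) → ι → Fin n → F := fun p F _ _ P =>
    crd e B (fun b j => map b (p b) j F (P b))
  have hκMH : ∀ p l, ∀ C ∈ κF p l, ∀ c, MH (κσ p l) (C c) := by
    intro p l C hC c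
    obtain ⟨C', hC', rfl⟩ := Finset.mem_image.mp hC
    exact emb_MH e _ (hMH _ _ _ C' hC' c)
  have hκTg : ∀ p l (F : Type) [Field F] [Algebra K F] (P : ∀ b, Fin (k b) → (B b).Pt F),
      Tg (κF p l) (crd e B P) (κm p F P l) := by
    intro p l F _ _ P
    refine (Tg_embF e _ _ _ _).mpr ⟨?_, ?_⟩
    · exact ((B (e.symm l).1).normed F _).ne_zero
    · have h1 := (hrep (e.symm l).1 (p _) (e.symm l).2 F (P (e.symm l).1)).1
      have h2 : (fun j => crd e B P (e ⟨(e.symm l).1, j⟩)) =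
          fun j => (B (e.symm l).1).vec F (P (e.symm l).1 j) := by
        funext j
        exact crd_apply e B P _ j
      rw [h2]
      exact h1
  have hκne : ∀ p l (F : Type) [Field F] [Algebra K F] (P : ∀ b, Fin (k b) → (B b).Pt F),
      ∃ C ∈ κF p l, ∃ c, ev (C c) (crd e B P) ≠ 0 := by
    intro p l F _ _ P
    obtain ⟨C, hC, c, hc⟩ := (hrep (e.symm l).1 (p _) (e.symm l).2 F (P (e.symm l).1)).2
    refine ⟨_, Finset.mem_image_of_mem _ hC, c, ?_⟩
    rw [ev_emb]
    have h2 : (fun j => crd e B P (e ⟨(e.symm l).1, j⟩)) =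
        fun j => (B (e.symm l).1).vec F (P (e.symm l).1 j) := by
      funext j
      exact crd_apply e B P _ j
    rw [h2]
    exact hc
  have hκLoc : ∀ p l, LocF (wqX (VX e B)) (UnX e Un) (κσ p l) (κF p l) := fun p l =>
    LocF_embF e B Un _ _ _ (hLoc _ _ _)
  -- the generic point
  obtain ⟨Ω, iΩ, iAΩ, iCΩ, P0, hP0z, hP0ind, hP0gen⟩ := hgen
  have hz : ∀ i : ι, Function.Injective (B (e.symm i).1).z := by
    intro i a b hab
    have hinj := hP0ind.injective
    have h1 : (⟨i, a⟩ : (i : ι) × Fin (B (e.symm i).1).g) = ⟨i, b⟩ := hinj (by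
      simp only [hab])
    simpa using h1
  have hz0 : ∀ (i : ι) (a : Fin (B (e.symm i).1).g),
      (B (e.symm i).1).z a ≠ (B (e.symm i).1).z0 := by
    intro i a ha
    have h1 : crd e B P0 i ((B (e.symm i).1).z a) / crd e B P0 i (B (e.symm i).1).z0 = 1 := by
      rw [ha]
      exact div_self (hP0z i)
    have h2 := hP0ind.transcendental ⟨i, a⟩
    simp only at h2
    rw [h1] at h2
    exact h2 isAlgebraic_one
  choose Bx hBx1 hBx2 hBx3 using fun dd : ι → ℕ => hbox K ι n κg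
    (fun i => (B (e.symm i).1).z0) (fun i => (B (e.symm i).1).z) hz hz0 dd
  -- counting
  have hcnt : ∀ p, c * (1 + ∑ l, κg l * κd p l * ∑ j, κσ p l j) ^ y <
      ∏ l, (κd p l + 1) ^ κg l := by
    intro p
    have h1 : ∑ l, (κg l : ℝ) * κd p l * ∑ j, (κσ p l j : ℝ) ≤ c2 * T := by
      have h2 : ∀ l, ∑ j, (κσ p l j : ℝ) =
          ∑ j, (σ (e.symm l).1 (p (e.symm l).1) (e.symm l).2 j : ℝ) := by
        intro l
        have := sum_embd e (e.symm l).1 (σ (e.symm l).1 (p (e.symm l).1) (e.symm l).2)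
        exact_mod_cast this
      simp_rw [h2]
      have h3 := Equiv.sum_comp e.symm (fun x : (b : β) × Fin (k b) =>
        ((B x.1).g : ℝ) * d x.1 (p x.1) x.2 * ∑ j, (σ x.1 (p x.1) x.2 j : ℝ))
      refine (le_of_eq h3).trans ?_
      rw [Fintype.sum_sigma, hc2, Finset.sum_mul]
      refine Finset.sum_le_sum (fun b _ => ?_)
      have h4 := mul_le_mul_of_nonneg_left (hdeg b (p b)) (Nat.cast_nonneg (α := ℝ) (B b).g)
      refine le_trans (le_of_eq ?_) (h4.trans (le_of_eq (by ring)))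
      rw [Finset.mul_sum]
      exact Finset.sum_congr rfl (fun j _ => by ring)
    have h5 : c3 * T ^ (y + 1) ≤ ∏ l, ((κd p l : ℝ) + 1) ^ κg l := by
      have h6 : ∏ b, (cb b * T ^ k b) ^ (B b).g ≤
          ∏ b, (T ^ r b * ∏ l, ((d b (p b) l : ℝ) + 1)) ^ (B b).g := by
        refine Finset.prod_le_prod (fun b _ => by have := hcb b; positivity) (fun b _ => ?_)
        exact pow_le_pow_left₀ (by have := hcb b; positivity) (hprod b (p b)) _
      have h7 : ∏ b, (cb b * T ^ k b) ^ (B b).g = c3 * T ^ (∑ b, k b * (B b).g) := by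
        rw [hc3, ← Finset.prod_pow_eq_pow_sum, ← Finset.prod_mul_distrib]
        refine Finset.prod_congr rfl (fun b _ => ?_)
        rw [mul_pow, pow_mul]
      have h8 : ∏ b, (T ^ r b * ∏ l, ((d b (p b) l : ℝ) + 1)) ^ (B b).g =
          T ^ (∑ b, r b * (B b).g) * ∏ l, ((κd p l : ℝ) + 1) ^ κg l := by
        have h9 := Equiv.prod_comp e.symm (fun x : (b : β) × Fin (k b) =>
          ((d x.1 (p x.1) x.2 : ℝ) + 1) ^ (B x.1).g)
        have h10 : ∏ l, ((κd p l : ℝ) + 1) ^ κg l =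
            ∏ b, ∏ j, ((d b (p b) j : ℝ) + 1) ^ (B b).g := by
          rw [← Fintype.prod_sigma (fun x : (b : β) × Fin (k b) =>
            ((d x.1 (p x.1) x.2 : ℝ) + 1) ^ (B x.1).g)]
          exact h9
        rw [h10, ← Finset.prod_pow_eq_pow_sum, ← Finset.prod_mul_distrib]
        refine Finset.prod_congr rfl (fun b _ => ?_)
        rw [mul_pow, pow_mul, Finset.prod_pow]
      rw [h7, h8] at h6
      have h11 : T ^ (∑ b, r b * (B b).g) * (c3 * T ^ (y + 1)) ≤
          c3 * T ^ (∑ b, k b * (B b).g) := by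
        have h12 : T ^ (∑ b, r b * (B b).g + (y + 1)) ≤ T ^ (∑ b, k b * (B b).g) :=
          pow_le_pow_right₀ hT1 (by omega)
        calc T ^ (∑ b, r b * (B b).g) * (c3 * T ^ (y + 1)) =
            c3 * T ^ (∑ b, r b * (B b).g + (y + 1)) := by rw [pow_add]; ring
          _ ≤ _ := mul_le_mul_of_nonneg_left h12 hc30.le
      exact le_of_mul_le_mul_left (h11.trans h6) (pow_pos hT0 _)
    have h13 : (c : ℝ) * (1 + ∑ l, (κg l : ℝ) * κd p l * ∑ j, (κσ p l j : ℝ)) ^ y ≤
        c * (1 + c2 * T) ^ y := by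
      refine mul_le_mul_of_nonneg_left (pow_le_pow_left₀ ?_ (by linarith) y) (Nat.cast_nonneg _)
      exact add_nonneg zero_le_one (Finset.sum_nonneg (fun l _ => by positivity))
    have h14 := (h13.trans_lt hT2).trans_le h5
    exact_mod_cast h14
  -- the auxiliary forms
  have hGex : ∀ p : (∀ b, I b), ∃ G : MvPolynomial (ι × Fin n) K, G ≠ 0 ∧
      G.support ⊆ Bx (κd p) ∧ MH (fun l => κg l * κd p l) G ∧
      ∀ i : τS, ev G (κm p (F i.1) (Pη i)) = 0 := by
    intro p
    refine hcount ι n (κσ p) (κF p) (hκMH p) (fun i => κm p (F i.1) (Pη i))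
      (fun i l => ?_) (fun i l => ?_) (fun l => κg l * κd p l) (Bx (κd p)) (hBx1 (κd p)) ?_
    · have := hκTg p l (F i.1) (Pη i)
      rw [hPη] at this
      exact this
    · have := hκne p l (F i.1) (Pη i)
      rw [hPη] at this
      exact this
    · rw [hBx2]
      exact hcnt p
  choose G hG0 hGs' hGMH hGη using hGex
  -- the global inequality
  have hU0 : ∃ (A : Finset K) (M e' : ℕ), 1 ≤ M ∧ ∀ (L : Type) [Field L] [Algebra K L]
      (w : AbsoluteValue L ℝ) (u : Option ι → Fin n → L), OnS (wqU (wqX (VX e B)) g) u →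
      UnU (UnX e Un) L w u →
      1 ≤ kap A M e' w * nvW w (upd (fun i => (B (e.symm i).1).e0)) (up (S0X e B)) u := by
    obtain ⟨A, M, e', hM, hA⟩ := S0X_Un e B Un hU
    refine ⟨A, M, e', hM, fun L _ _ w u hu hUn => ?_⟩
    rw [nvW_up]
    exact hA L w _ ((onS_wqU _ _ _).mp hu).2.1 hUn
  choose Cu hCu0 hCu using fun p : (∀ b, I b) => globX (wqU (wqX (VX e B)) g) (UnU (UnX e Un))
    f δ hf (G p) (fun l => κg l * κd p l) (hGMH p) (fun l => upF (κF p l))
    (locX_G (wqU (wqX (VX e B)) g) hwU (UnU (UnX e Un)) f δ hf F η hη3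
      (fun l => upd (κσ p l)) (fun l => upF (κF p l))
      (fun l C hC c => by
        obtain ⟨C', hC', rfl⟩ := mem_upF.mp hC
        exact up_MH (hκMH p l C' hC' c))
      (fun l => LocF_upF _ g _ _ _ (hκLoc p l)) (up (S0X e B)) _ (up_MH (S0X_MH e B)) hU0
      (G p) (fun l => κg l * κd p l)
      (hGMH p) (fun i => by
        by_cases hi : ev (S0X e B) (fun l => η i (some l)) = 0
        · left
          rw [ev_up]
          exact hi
        · right
          refine ⟨κm p (F i) (Pη ⟨i, hi⟩), fun l => ?_, hGη p ⟨i, hi⟩⟩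
          have := hκTg p l (F i) (Pη ⟨i, hi⟩)
          rw [hPη ⟨i, hi⟩] at this
          exact (Tg_upF _ _ _).mpr this))
  -- the forms on the product
  have hform : ∀ p : (∀ b, I b), ∃ (Ψ : MvPolynomial (ι × Fin n) K)
      (τ : ι → ℕ), MH τ Ψ ∧ ev Ψ (crd e B P0) ≠ 0 ∧
      ∀ (L : Type) [Field L] [Algebra K L] (P : ∀ b, Fin (k b) → (B b).Pt L),
        ev Ψ (crd e B P) ≠ 0 → ev (G p) (κm p L P) ≠ 0 := by
    intro p
    choose Q hQ using fun b => hsol b (p b) Ω (P0 b)
    choose T0 hT0 ee hee using fun l => hκne p l Ω Q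
    have hMH' := MH_cmp (hGMH p) T0 (κσ p) (fun l c => hκMH p _ _ (hT0 l) c)
    have hval : ∀ (L : Type) [Field L] [Algebra K L] (P : ∀ b, Fin (k b) → (B b).Pt L),
        ∃ rr : ι → L, (∀ l, (fun c => ev (T0 l c) (crd e B P)) = rr l • κm p L P l) ∧
          ev (cmp (G p) T0) (crd e B P) =
          (∏ l, rr l ^ (κg l * κd p l)) * ev (G p) (κm p L P) := by
      intro L _ _ P
      choose rr hrr using fun l => (hκTg p l L P).2 _ (hT0 l)
      refine ⟨rr, hrr, ?_⟩
      rw [ev_cmp]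
      have h3 : (fun (l : ι) (c : Fin n) => ev (T0 l c) (crd e B P)) =
          fun l => rr l • κm p L P l := by
        funext l
        exact hrr l
      rw [h3, ev_smul (hGMH p)]
    refine ⟨cmp (G p) T0, _, hMH', ?_, ?_⟩
    · refine hP0gen _ _ hMH' ⟨Ω, iΩ, iAΩ, Q, ?_⟩
      obtain ⟨rr, hrr, hev⟩ := hval Ω Q
      rw [hev]
      refine mul_ne_zero (Finset.prod_ne_zero_iff.mpr (fun l _ => pow_ne_zero _ ?_)) ?_
      · intro h0
        apply hee l
        have := congrFun (hrr l) (ee l)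
        rw [h0, zero_smul] at this
        exact this
      · have h1 : κm p Ω Q = crd e B P0 := by
          change crd e B (fun b j => map b (p b) j Ω (Q b)) = crd e B P0
          have : (fun b j => map b (p b) j Ω (Q b)) = P0 := by
            funext b j
            exact hQ b j
          rw [this]
        rw [h1]
        exact hBx3 (κd p) (G p) (hG0 p) (hGs' p) Ω (crd e B P0) hP0z hP0ind
    · intro L _ _ P hP hcon
      obtain ⟨rr, hrr, hev⟩ := hval L P
      rw [hev, hcon, mul_zero] at hP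
      exact hP rfl
  choose Ψ τ hΨ1 hΨ2 hΨ3 using hform
  have hevprod : ∀ (L : Type) [Field L] [Algebra K L] (u : ι → Fin n → L),
      ev (∏ p, Ψ p) u = ∏ p, ev (Ψ p) u := by
    intro L _ _ u
    simp only [ev, map_prod]
  refine ⟨∏ p, Ψ p, _, MH_prod Finset.univ τ Ψ (fun p _ => hΨ1 p),
    ⟨Ω, iΩ, iAΩ, P0, ?_⟩, ?_⟩
  · rw [hevprod]
    exact Finset.prod_ne_zero_iff.mpr (fun p _ => hΨ2 p)
  -- the constants
  obtain ⟨δ0, hδ0, hδ0b⟩ : ∃ δ0 : ℝ, 0 < δ0 ∧ ∀ b, δ0 ≤ δb b := by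
    rcases isEmpty_or_nonempty β with h | h
    · exact ⟨1, one_pos, fun b => (IsEmpty.false b).elim⟩
    · obtain ⟨b0, hb0⟩ := Finite.exists_min δb
      exact ⟨δb b0, hδb b0, hb0⟩
  refine ⟨δ0, hδ0, ε + N * ∑ b, ((B b).g : ℝ) * CT b + ∑ p, Cu p,
    fun L _ _ _ P t ht htg hrk hP => ?_⟩
  rw [hevprod, Finset.prod_ne_zero_iff] at hP
  set DL : ℝ := (Module.finrank ℚ L : ℝ) with hDL
  have hDL0 : 0 ≤ DL := Nat.cast_nonneg _
  have hh0 : ∀ b, 0 ≤ ∑ j, logHeight ((B b).vec L (P b j)) := fun b =>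
    Finset.sum_nonneg (fun _ _ => logHeight_nonneg _)
  have h2 : ∑ i, logHeight (crd e B P i) = ∑ b, ∑ j, logHeight ((B b).vec L (P b j)) := by
    have h3 := Equiv.sum_comp e.symm (fun x : (b : β) × Fin (k b) =>
      logHeight ((B x.1).vec L (P x.1 x.2)))
    refine h3.trans ?_
    rw [Fintype.sum_sigma]
  set H : ℝ := DL + ∑ i, logHeight (crd e B P i) with hH
  have hS0 : 0 ≤ ∑ i, logHeight (crd e B P i) := Finset.sum_nonneg (fun _ _ => logHeight_nonneg _)
  have hH0 : 0 ≤ H := add_nonneg hDL0 hS0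
  choose p hp using fun b => hCT b L (P b) H (by linarith) (by
    have h4 : ∑ j, logHeight ((B b).vec L (P b j)) ≤
        ∑ b, ∑ j, logHeight ((B b).vec L (P b j)) :=
      Finset.single_le_sum (f := fun b => ∑ j, logHeight ((B b).vec L (P b j)))
        (fun b _ => hh0 b) (Finset.mem_univ b)
    linarith) (hmono b _ _ L H (P b) (hδ0b b) hH0 (hrk b))
  obtain ⟨hne, hFS, hbound⟩ := hCu p L (ext t (crd e B P))
    ((onS_wqU _ _ _).mpr ⟨ht, onS_crd e B P, htg⟩) (κm p L P)
    (fun l => (Tg_upF _ _ _).mpr (hκTg p l L P)) (hΨ3 p L P (hP p (Finset.mem_univ _)))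
  refine ⟨hne, hFS, hbound.trans ?_⟩
  have h1 : ∑ l, ((κg l * κd p l : ℕ) : ℝ) * logHeight (κm p L P l) =
      ∑ b, ((B b).g : ℝ) * ∑ j, (d b (p b) j : ℝ) *
        logHeight ((B b).vec L (map b (p b) j L (P b))) := by
    have h2 := Equiv.sum_comp e.symm (fun x : (b : β) × Fin (k b) =>
      (((B x.1).g * d x.1 (p x.1) x.2 : ℕ) : ℝ) *
        logHeight ((B x.1).vec L (map x.1 (p x.1) x.2 L (P x.1))))
    refine h2.trans ?_
    rw [Fintype.sum_sigma]
    refine Finset.sum_congr rfl (fun b _ => ?_)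
    rw [Finset.mul_sum]
    refine Finset.sum_congr rfl (fun j _ => ?_)
    push_cast
    ring
  have h3 : ∑ b, ((B b).g : ℝ) * ∑ j, (d b (p b) j : ℝ) *
        logHeight ((B b).vec L (map b (p b) j L (P b))) ≤
      Gs * (ε' * H) + (∑ b, ((B b).g : ℝ) * CT b) * DL := by
    have h4 : ∀ b, ((B b).g : ℝ) * ∑ j, (d b (p b) j : ℝ) *
        logHeight ((B b).vec L (map b (p b) j L (P b))) ≤
        ((B b).g : ℝ) * (ε' * H) + ((B b).g : ℝ) * CT b * DL := by
      intro b
      have h5 := mul_le_mul_of_nonneg_left (hp b) (Nat.cast_nonneg (α := ℝ) (B b).g)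
      refine h5.trans (le_of_eq (by ring))
    refine (Finset.sum_le_sum (fun b _ => h4 b)).trans ?_
    rw [Finset.sum_add_distrib, ← Finset.sum_mul, ← Finset.sum_mul]
    have h6 : ∑ b, ((B b).g : ℝ) ≤ Gs := by linarith
    have h7 := mul_le_mul_of_nonneg_right h6 (mul_nonneg hε'0.le hH0)
    linarith
  rw [h1]
  have h5 := mul_le_mul_of_nonneg_left h3 hN0.le
  have h6 : Cu p ≤ ∑ p, Cu p :=
    Finset.single_le_sum (f := fun p => Cu p) (fun p _ => hCu0 p) (Finset.mem_univ p)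
  have h7 := mul_le_mul_of_nonneg_right h6 hDL0
  have h8 : (N : ℝ) * (Gs * ε') = ε := by
    rw [hε']
    field_simp
  calc (N : ℝ) * (∑ b, ((B b).g : ℝ) * ∑ j, (d b (p b) j : ℝ) *
        logHeight ((B b).vec L (map b (p b) j L (P b)))) + Cu p * DL ≤
      N * (Gs * (ε' * H) + (∑ b, ((B b).g : ℝ) * CT b) * DL) + (∑ p, Cu p) * DL := by linarith
    _ = (N * (Gs * ε')) * H + (N * (∑ b, ((B b).g : ℝ) * CT b) + ∑ p, Cu p) * DL := by ring
    _ = _ := by rw [h8, hH]; ring

open Classical in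
/-- The main theorem for varieties over a product, for finitely many rank conditions. -/
theorem main5 {K : Type} [Field K] [NumberField K] {n : ℕ} {β ι R : Type} [Fintype β]
    [Fintype ι] [Finite R]
    {k : β → ℕ} (e : ((b : β) × Fin (k b)) ≃ ι) (B : β → Blk K n) (r : R → β → ℕ)
    (rk : R → ∀ b, RkC (B b) (k b))
    (Un : ∀ b, Cond K (Fin (k b)) n)
    (hmono : ∀ p b (δ δ' : ℝ) (L : Type) [Field L] [NumberField L] [Algebra K L] (H : ℝ)
      (P : Fin (k b) → (B b).Pt L), δ ≤ δ' → 0 ≤ H → rk p b δ L H P → rk p b δ' L H P)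
    (hB : ∀ p b, BlkOK2 (B b) (k b) (r p b) (rk p b) (Un b)) (hU : ∀ b, UnOK (B b) (k b) (Un b))
    (hbox : T_boxX) (hgen : GenX e B) (y : ℕ)
    (hy : ∀ p, y + ∑ b, r p b * (B b).g < ∑ b, k b * (B b).g) {q s : ℕ}
    (g : Fin q → MvPolynomial (Option ι × Fin n) K) (hg : ∀ i, ∃ γ, MH γ (g i))
    (f : Fin s → MvPolynomial (Option ι × Fin n) K) (δ : Fin s → Option ι → ℕ)
    (hf : ∀ i, MH (δ i) (f i))
    (hdim : ∀ (F : Type) [Field F] [Algebra K F] (η : ∀ b, Fin (k b) → (B b).Pt F)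
      (t : Fin n → F), Normed t → (∀ i, ev (g i) (ext t (crd e B η)) = 0) →
      (∀ i, ev (f i) (ext t (crd e B η)) = 0) →
      Algebra.trdeg K (IntermediateField.adjoin K
        (Set.range (fun p : ι × Fin n => crd e B η p.1 p.2))) ≤ (y : Cardinal))
    (ε : ℝ) (hε : 0 < ε) :
    ∃ (Φ : MvPolynomial (ι × Fin n) K) (τ : ι → ℕ), MH τ Φ ∧
      (∃ (F : Type) (_ : Field F) (_ : Algebra K F) (P : ∀ b, Fin (k b) → (B b).Pt F),
        ev Φ (crd e B P) ≠ 0) ∧
      ∃ δ0 : ℝ, 0 < δ0 ∧ ∃ C : ℝ, ∀ (L : Type) [Field L] [NumberField L] [Algebra K L]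
        (P : ∀ b, Fin (k b) → (B b).Pt L) (t : Fin n → L), t ≠ 0 →
        (∀ i, ev (g i) (ext t (crd e B P)) = 0) →
        (∃ p, ∀ b, rk p b δ0 L (Module.finrank ℚ L + ∑ i, logHeight (crd e B P i)) (P b)) →
        ev Φ (crd e B P) ≠ 0 →
        (∀ w : AbsoluteValue L ℝ, UnX e Un L w (crd e B P) →
          ∃ i, ev (f i) (ext t (crd e B P)) ≠ 0) ∧
        FS (fun w : AbsoluteValue L ℝ => if UnX e Un L w (crd e B P) then
          -Real.log (⨆ i, nvW w (δ i) (f i) (ext t (crd e B P))) else 0) ∧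
        hYX (UnU (UnX e Un)) f δ (ext t (crd e B P)) ≤
          ε * ∑ i, logHeight (crd e B P i) + C * Module.finrank ℚ L := by
  have hR := Fintype.ofFinite R
  choose Φ τ h1 h2 δ1 hδ1 C h3 using fun p => main4 e B (r p) (rk p) Un (hmono p) (hB p) hU hbox
    hgen y (hy p) g hg f δ hf hdim ε hε
  obtain ⟨Ω, iΩ, iAΩ, iCΩ, P0, hP0z, hP0ind, hP0gen⟩ := hgen
  obtain ⟨δ0, hδ0, hδle⟩ := exists_lower δ1 hδ1
  have hevprod : ∀ (L : Type) [Field L] [Algebra K L] (u : ι → Fin n → L),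
      ev (∏ p, Φ p) u = ∏ p, ev (Φ p) u := by
    intro L _ _ P
    simp only [ev, map_prod]
  refine ⟨∏ p, Φ p, _, MH_prod Finset.univ τ Φ (fun p _ => h1 p), ⟨Ω, iΩ, iAΩ, P0, ?_⟩,
    δ0, hδ0, ∑ p, |C p|, fun L _ _ _ P t ht htg hP hΦ => ?_⟩
  · rw [hevprod]
    exact Finset.prod_ne_zero_iff.mpr (fun p _ => hP0gen _ _ (h1 p) (h2 p))
  rw [hevprod, Finset.prod_ne_zero_iff] at hΦ
  obtain ⟨p, hp⟩ := hP
  have hH0 : 0 ≤ (Module.finrank ℚ L : ℝ) + ∑ i, logHeight (crd e B P i) :=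
    add_nonneg (Nat.cast_nonneg _) (Finset.sum_nonneg (fun _ _ => logHeight_nonneg _))
  obtain ⟨h4, h5, h6⟩ := h3 p L P t ht htg (fun b => hmono p b _ _ L _ _ (hδle p) hH0 (hp b))
    (hΦ p (Finset.mem_univ _))
  refine ⟨h4, h5, h6.trans ?_⟩
  have h7 : C p ≤ ∑ p, |C p| := (le_abs_self _).trans
    (Finset.single_le_sum (f := fun p => |C p|) (fun _ _ => abs_nonneg _) (Finset.mem_univ p))
  have h8 := mul_le_mul_of_nonneg_right h7 (Nat.cast_nonneg (α := ℝ) (Module.finrank ℚ L))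
  linarith

end Pool.Agent.TH954.X
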