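import Pool.Agent.TH954.X.FinS
import Pool.Agent.TH954.X2.Main4

/-!
# Varieties over products of a torus and powers of abelian varieties
-/

set_option autoImplicit false
set_option linter.unusedSectionVars false

open MvPolynomial NumberField Height Pool.Agent.TH954.V

namespace Pool.Agent.TH954.X

section semi

variable {K : Type} [Field K] {n β : ℕ}

open Classical in
theorem finS5 (hblk : T_blkA2) (hblkT : T_blkT2) (hunT : T_unT) (hirrT : T_irrT) (hgen : T_gen)
    [NumberField K] (hn : 2 ≤ n) (A : Fin β → AbV K n)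
    (m : ℕ) (k : Fin β → ℕ) (y : ℕ) {q s : ℕ}
    (g : Fin q → MvPolynomial (Option (Fin m ⊕ ((b : Fin β) × Fin (k b))) × Fin n) K)
    (hg : ∀ i, ∃ γ, MH γ (g i))
    (f : Fin s → MvPolynomial (Option (Fin m ⊕ ((b : Fin β) × Fin (k b))) × Fin n) K)
    (δ : Fin s → Option (Fin m ⊕ ((b : Fin β) × Fin (k b))) → ℕ) (hf : ∀ i, MH (δ i) (f i))
    (hdim : ∀ (F : Type) [Field F] [Algebra K F] (x : Fin m → Fˣ)
      (P : ∀ b, Fin (k b) → (A b).Pt F) (t : Fin n → F), Normed t →
      (∀ i, ev (g i) (ext t (crdS A x P)) = 0) →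
      (∀ i, ev (f i) (ext t (crdS A x P)) = 0) →
      Algebra.trdeg K (IntermediateField.adjoin K
        (Set.range (fun p : (Fin m ⊕ ((b : Fin β) × Fin (k b))) × Fin n =>
          crdS A x P p.1 p.2))) ≤ (y : Cardinal))
    (S : Finset K) (ε : ℝ) (hε : 0 < ε) :
    ∃ (Φ : MvPolynomial ((Fin m ⊕ ((b : Fin β) × Fin (k b))) × Fin n) K)
      (τ : (Fin m ⊕ ((b : Fin β) × Fin (k b))) → ℕ), MH τ Φ ∧
      (∃ (F : Type) (_ : Field F) (_ : Algebra K F) (x : Fin m → Fˣ)
        (P : ∀ b, Fin (k b) → (A b).Pt F), ev Φ (crdS A x P) ≠ 0) ∧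
      ∃ δ0 : ℝ, 0 < δ0 ∧ ∃ C : ℝ, ∀ (L : Type) [Field L] [NumberField L] [Algebra K L]
        (x x' : Fin m → Lˣ) (P P' : ∀ b, Fin (k b) → (A b).Pt L) (t : Fin n → L) (r0 : ℕ)
        (r : Fin β → ℕ), t ≠ 0 → (∀ i, ev (g i) (ext t (crdS A x P)) = 0) →
        y + (r0 + ∑ b, r b * (A b).dim) < m + ∑ b, k b * (A b).dim →
        trk K m r0 L x' → (∀ b, (A b).toAbR.rk (k b) (r b) L (P' b)) →
        ∑ j, logHeight (tvec n ((x j / x' j : Lˣ) : L)) +
          ∑ i : (b : Fin β) × Fin (k b), logHeight (P i.1 i.2 - P' i.1 i.2).1 ≤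
          δ0 * (Module.finrank ℚ L + ∑ i, logHeight (crdS A x P i)) →
        ev Φ (crdS A x P) ≠ 0 →
        (∃ i, ev (f i) (ext t (crdS A x P)) ≠ 0) ∧
        FS (fun w : AbsoluteValue L ℝ => if UnS S x w then
          -Real.log (⨆ i, nvW w (δ i) (f i) (ext t (crdS A x P))) else 0) ∧
        tot (fun w => if UnS S x w then
          -Real.log (⨆ i, nvW w (δ i) (f i) (ext t (crdS A x P))) else 0) ≤
          ε * ∑ i, logHeight (crdS A x P i) + C * Module.finrank ℚ L := by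
  have hsum1 : ∀ (r0 : ℕ) (r : Fin β → ℕ),
      ∑ b, rO r0 r b * (BO hn A b).g = r0 + ∑ b, r b * (A b).dim := by
    intro r0 r
    rw [Fintype.sum_option]
    change r0 * 1 + _ = _
    rw [mul_one]
    rfl
  have hsum2 : ∑ b, kO m k b * (BO hn A b).g = m + ∑ b, k b * (A b).dim := by
    rw [Fintype.sum_option]
    change m * 1 + _ = _
    rw [mul_one]
    rfl
  obtain ⟨Φ, τ, h1, h2, δ0, hδ0, C, h3⟩ := main5 (R := RS A m k y) (eO m k) (BO hn A)
    (fun r => rO r.1.1.1 (fun b => (r.1.2 b).1))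
    (fun r => rkO hn A m k r.1.1.1 (fun b => (r.1.2 b).1)) (UnO hn m k S)
    (by
      rintro r (_ | b) δ δ' L _ _ _ H P hδ hH ⟨P', hP', hP⟩
      · exact ⟨P', hP', hP.trans (mul_le_mul_of_nonneg_right hδ hH)⟩
      · exact ⟨P', hP', hP.trans (mul_le_mul_of_nonneg_right hδ hH)⟩)
    (by
      rintro r (_ | b)
      · exact hblkT K n hn m _ S
      · exact hblk K n (A b).toAbR (k b) _)
    (by
      rintro (_ | b)
      · exact hunT K n hn m S
      · exact trueUn A k b)
    boxX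
    (hgen K n (Option (Fin β)) _ (kO m k) (eO m k) (BO hn A)
      (by
        rintro (_ | b)
        · exact (hirrT K n hn).1
        · exact (A b).irr)
      (by
        rintro (_ | b)
        · exact (hirrT K n hn).2
        · exact (A b).ind)) y (fun r => by rw [hsum1, hsum2]; exact r.2)
    g hg f δ hf (fun F _ _ η t ht hgt hη => by
      obtain ⟨x, P, hxP⟩ := crd_O hn A η
      rw [hxP] at hη hgt ⊢
      exact hdim F x P t ht hgt hη) ε hε
  refine ⟨Φ, τ, h1, ?_, δ0, hδ0, C,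
    fun L _ _ _ x x' P P' t r0 r ht htg hr hx' hP' hnear hP => ?_⟩
  · obtain ⟨F, iF, iA, Q, hQ⟩ := h2
    obtain ⟨x, P, hxP⟩ := crd_O hn A Q
    rw [hxP] at hQ
    exact ⟨F, iF, iA, x, P, hQ⟩
  have ha0 : 0 ≤ ∑ j, logHeight (tvec n ((x j / x' j : Lˣ) : L)) :=
    Finset.sum_nonneg (fun _ _ => logHeight_nonneg _)
  have hb0 : 0 ≤ ∑ i : (b : Fin β) × Fin (k b), logHeight (P i.1 i.2 - P' i.1 i.2).1 :=
    Finset.sum_nonneg (fun _ _ => logHeight_nonneg _)
  let r' : RS A m k y := ⟨(⟨min r0 m, by omega⟩, fun b => ⟨min (r b) (k b), by omega⟩),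
    lt_of_le_of_lt (Nat.add_le_add_left (Nat.add_le_add (min_le_left _ _) (Finset.sum_le_sum
      (fun b _ => Nat.mul_le_mul_right _ (min_le_left _ _)))) _) hr⟩
  obtain ⟨h4, h5, h6⟩ := h3 L (PO hn A x P) t ht (by rw [crd_PO]; exact htg) ⟨r', by
    intro b
    rw [crd_PO]
    rcases b with _ | b
    · exact ⟨x', trk_min _ _ _ _ _ hx', by
        refine le_trans ?_ hnear
        exact le_add_of_nonneg_right hb0⟩
    · refine ⟨P' b, AbR.rk_min _ _ _ _ _ (hP' b), ?_⟩
      refine le_trans ?_ hnear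
      refine le_trans ?_ (le_add_of_nonneg_left ha0)
      rw [Fintype.sum_sigma]
      exact Finset.single_le_sum
        (f := fun b => ∑ j, logHeight (P b j - P' b j).1)
        (fun b _ => Finset.sum_nonneg (fun j _ => logHeight_nonneg _)) (Finset.mem_univ b)⟩
    (by rw [crd_PO]; exact hP)
  rw [crd_PO] at h4 h6
  have hfun : (fun w : AbsoluteValue L ℝ =>
      if UnX (eO m k) (UnO hn m k S) L w (crdS A x P) then
        -Real.log (⨆ i, nvW w (δ i) (f i) (ext t (crdS A x P))) else 0) =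
      fun w => if UnS S x w then
        -Real.log (⨆ i, nvW w (δ i) (f i) (ext t (crdS A x P))) else 0 := by
    funext w
    exact if_congr (UnO_iff hn A S x P w) rfl rfl
  simp only [crd_PO] at h5
  refine ⟨h4 AbsoluteValue.trivial ((UnO_iff hn A S x P _).mpr ?_), ?_, ?_⟩
  · intro i
    have h7 : AbsoluteValue.trivial (R := L) (S := ℝ) ((x i : Lˣ) : L) = 1 := by
      simp
    have h8 := one_le_cM S (AbsoluteValue.trivial (R := L) (S := ℝ))
    rw [h7]
    exact ⟨h8, by linarith⟩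
  · rw [← hfun]
    exact h5
  · unfold hYX at h6
    rw [← hfun]
    exact h6

end semi

end Pool.Agent.TH954.X
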