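import Pool.Agent.TH954.X.AbV

/-!
# Adding zero coordinates: target
-/

set_option autoImplicit false

open MvPolynomial

namespace Pool.Agent.TH954.X

/-- **Target.** An abelian variety in a projective space as a subvariety of a larger one. -/
def T_pad : Prop := ∀ (K : Type) [Field K] (n n' : ℕ) (_ : n ≤ n') (A : AbV K n),
  ∃ A' : AbV K n', A'.dim = A.dim ∧ A'.ρ = A.ρ ∧
    ∀ (F : Type) [Field F] [Algebra K F], ∃ e : A'.Pt F ≃+ A.Pt F,
      ∀ (P : A'.Pt F) (c : Fin n'), P.1 c = if h : c.1 < n then (e P).1 ⟨c.1, h⟩ else 0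

end Pool.Agent.TH954.X
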