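import Pool.Agent.TH954.X2.WDefs

/-!
# The matrix `(P + Q)_i (P - Q)_j` on `y² = x³ + a x + b`  (job for helper954, by helper889)
-/

set_option autoImplicit false

open MvPolynomial WeierstrassCurve

namespace Pool.Agent.TH954.X.We

section forms

variable {K : Type} [Field K]

/-- the monomial `c * (p_i p_j) * (q_k q_l)` -/
noncomputable def ltm (t : K × Fin 3 × Fin 3 × Fin 3 × Fin 3) : MvPolynomial (Fin 2 × Fin 3) K :=
  C t.1 * (X (0, t.2.1) * X (0, t.2.2.1) * (X (1, t.2.2.2.1) * X (1, t.2.2.2.2)))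

/-- the terms of the entries -/
def ltab (a b : K) : Fin 3 → Fin 3 → List (K × Fin 3 × Fin 3 × Fin 3 × Fin 3) :=
  ![![[(a, 0, 0, 0, 1), (-(a), 0, 1, 0, 0), (-(1), 0, 0, 2, 2), (3, 0, 1, 1, 1), (-(3), 1, 1, 0, 1),
      (1, 2, 2, 0, 0)],
      [(-(a), 0, 0, 1, 1), (a, 1, 1, 0, 0), (-(3 * b), 0, 0, 0, 1), (3 * b, 0, 1, 0, 0), (-(1), 0, 1,
      2, 2), (-(2), 0, 2, 1, 2), (2, 1, 2, 0, 2), (1, 2, 2, 0, 1)],
      [(-(a), 0, 0, 1, 2), (-(2 * a), 0, 1, 0, 2), (-(2 * a), 0, 2, 0, 1), (-(a), 1, 2, 0, 0), (-(3 *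
      b), 0, 0, 0, 2), (-(3 * b), 0, 2, 0, 0), (-(1), 0, 2, 2, 2), (-(3), 1, 1, 1, 2), (-(3), 1, 2,
      1, 1), (-(1), 2, 2, 0, 2)]],
    ![[(-(a), 0, 0, 1, 1), (a, 1, 1, 0, 0), (-(3 * b), 0, 0, 0, 1), (3 * b, 0, 1, 0, 0), (-(1), 0, 1,
      2, 2), (2, 0, 2, 1, 2), (-(2), 1, 2, 0, 2), (1, 2, 2, 0, 1)],
      [(-(a ^ 2), 0, 0, 0, 1), (a ^ 2, 0, 1, 0, 0), (a, 0, 1, 1, 1), (-(a), 1, 1, 0, 1), (3 * b, 0,
      0, 1, 1), (-(3 * b), 1, 1, 0, 0), (-(1), 1, 1, 2, 2), (1, 2, 2, 1, 1)],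
      [(-(a ^ 2), 0, 0, 0, 2), (-(a ^ 2), 0, 2, 0, 0), (2 * a, 0, 1, 1, 2), (a, 0, 2, 1, 1), (a, 1,
      1, 0, 2), (2 * a, 1, 2, 0, 1), (3 * b, 0, 0, 1, 2), (6 * b, 0, 1, 0, 2), (6 * b, 0, 2, 0, 1),
      (3 * b, 1, 2, 0, 0), (-(1), 1, 2, 2, 2), (-(1), 2, 2, 1, 2)]],
    ![[(a, 0, 0, 1, 2), (2 * a, 0, 1, 0, 2), (-(2 * a), 0, 2, 0, 1), (-(a), 1, 2, 0, 0), (3 * b, 0,
      0, 0, 2), (-(3 * b), 0, 2, 0, 0), (-(1), 0, 2, 2, 2), (3, 1, 1, 1, 2), (-(3), 1, 2, 1, 1), (1,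
      2, 2, 0, 2)],
      [(a ^ 2, 0, 0, 0, 2), (-(a ^ 2), 0, 2, 0, 0), (-(2 * a), 0, 1, 1, 2), (a, 0, 2, 1, 1), (-(a),
      1, 1, 0, 2), (2 * a, 1, 2, 0, 1), (-(3 * b), 0, 0, 1, 2), (-(6 * b), 0, 1, 0, 2), (6 * b, 0, 2,
      0, 1), (3 * b, 1, 2, 0, 0), (-(1), 1, 2, 2, 2), (1, 2, 2, 1, 2)],
      [(a ^ 3 + 9 * b ^ 2, 0, 0, 0, 0), (a ^ 2, 0, 0, 1, 1), (4 * a ^ 2, 0, 1, 0, 1), (a ^ 2, 1, 1,
      0, 0), (3 * a * b, 0, 0, 0, 1), (3 * a * b, 0, 1, 0, 0), (-(3 * a), 1, 1, 1, 1), (-(9 * b), 0,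
      1, 1, 1), (-(9 * b), 1, 1, 0, 1), (-(1), 2, 2, 2, 2)]]]

/-- the values of the entries -/
def lval {R : Type} [CommRing R] (A B : R) (p q : Fin 3 → R) : Fin 3 → Fin 3 → R :=
  ![![(A) * (p 0 * p 0 * (q 0 * q 1)) + (-(A)) * (p 0 * p 1 * (q 0 * q 0)) + (-(1)) * (p 0 * p 0 * (q
      2 * q 2)) + (3) * (p 0 * p 1 * (q 1 * q 1)) + (-(3)) * (p 1 * p 1 * (q 0 * q 1)) + (1) * (p 2 *
      p 2 * (q 0 * q 0)),
      (-(A)) * (p 0 * p 0 * (q 1 * q 1)) + (A) * (p 1 * p 1 * (q 0 * q 0)) + (-(3 * B)) * (p 0 * p 0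
      * (q 0 * q 1)) + (3 * B) * (p 0 * p 1 * (q 0 * q 0)) + (-(1)) * (p 0 * p 1 * (q 2 * q 2)) +
      (-(2)) * (p 0 * p 2 * (q 1 * q 2)) + (2) * (p 1 * p 2 * (q 0 * q 2)) + (1) * (p 2 * p 2 * (q 0
      * q 1)),
      (-(A)) * (p 0 * p 0 * (q 1 * q 2)) + (-(2 * A)) * (p 0 * p 1 * (q 0 * q 2)) + (-(2 * A)) * (p 0
      * p 2 * (q 0 * q 1)) + (-(A)) * (p 1 * p 2 * (q 0 * q 0)) + (-(3 * B)) * (p 0 * p 0 * (q 0 * q
      2)) + (-(3 * B)) * (p 0 * p 2 * (q 0 * q 0)) + (-(1)) * (p 0 * p 2 * (q 2 * q 2)) + (-(3)) * (p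
      1 * p 1 * (q 1 * q 2)) + (-(3)) * (p 1 * p 2 * (q 1 * q 1)) + (-(1)) * (p 2 * p 2 * (q 0 * q
      2))],
    ![(-(A)) * (p 0 * p 0 * (q 1 * q 1)) + (A) * (p 1 * p 1 * (q 0 * q 0)) + (-(3 * B)) * (p 0 * p 0
      * (q 0 * q 1)) + (3 * B) * (p 0 * p 1 * (q 0 * q 0)) + (-(1)) * (p 0 * p 1 * (q 2 * q 2)) + (2)
      * (p 0 * p 2 * (q 1 * q 2)) + (-(2)) * (p 1 * p 2 * (q 0 * q 2)) + (1) * (p 2 * p 2 * (q 0 * q
      1)),
      (-(A ^ 2)) * (p 0 * p 0 * (q 0 * q 1)) + (A ^ 2) * (p 0 * p 1 * (q 0 * q 0)) + (A) * (p 0 * p 1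
      * (q 1 * q 1)) + (-(A)) * (p 1 * p 1 * (q 0 * q 1)) + (3 * B) * (p 0 * p 0 * (q 1 * q 1)) +
      (-(3 * B)) * (p 1 * p 1 * (q 0 * q 0)) + (-(1)) * (p 1 * p 1 * (q 2 * q 2)) + (1) * (p 2 * p 2
      * (q 1 * q 1)),
      (-(A ^ 2)) * (p 0 * p 0 * (q 0 * q 2)) + (-(A ^ 2)) * (p 0 * p 2 * (q 0 * q 0)) + (2 * A) * (p
      0 * p 1 * (q 1 * q 2)) + (A) * (p 0 * p 2 * (q 1 * q 1)) + (A) * (p 1 * p 1 * (q 0 * q 2)) + (2
      * A) * (p 1 * p 2 * (q 0 * q 1)) + (3 * B) * (p 0 * p 0 * (q 1 * q 2)) + (6 * B) * (p 0 * p 1 *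
      (q 0 * q 2)) + (6 * B) * (p 0 * p 2 * (q 0 * q 1)) + (3 * B) * (p 1 * p 2 * (q 0 * q 0)) +
      (-(1)) * (p 1 * p 2 * (q 2 * q 2)) + (-(1)) * (p 2 * p 2 * (q 1 * q 2))],
    ![(A) * (p 0 * p 0 * (q 1 * q 2)) + (2 * A) * (p 0 * p 1 * (q 0 * q 2)) + (-(2 * A)) * (p 0 * p 2
      * (q 0 * q 1)) + (-(A)) * (p 1 * p 2 * (q 0 * q 0)) + (3 * B) * (p 0 * p 0 * (q 0 * q 2)) +
      (-(3 * B)) * (p 0 * p 2 * (q 0 * q 0)) + (-(1)) * (p 0 * p 2 * (q 2 * q 2)) + (3) * (p 1 * p 1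
      * (q 1 * q 2)) + (-(3)) * (p 1 * p 2 * (q 1 * q 1)) + (1) * (p 2 * p 2 * (q 0 * q 2)),
      (A ^ 2) * (p 0 * p 0 * (q 0 * q 2)) + (-(A ^ 2)) * (p 0 * p 2 * (q 0 * q 0)) + (-(2 * A)) * (p
      0 * p 1 * (q 1 * q 2)) + (A) * (p 0 * p 2 * (q 1 * q 1)) + (-(A)) * (p 1 * p 1 * (q 0 * q 2)) +
      (2 * A) * (p 1 * p 2 * (q 0 * q 1)) + (-(3 * B)) * (p 0 * p 0 * (q 1 * q 2)) + (-(6 * B)) * (p
      0 * p 1 * (q 0 * q 2)) + (6 * B) * (p 0 * p 2 * (q 0 * q 1)) + (3 * B) * (p 1 * p 2 * (q 0 * q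
      0)) + (-(1)) * (p 1 * p 2 * (q 2 * q 2)) + (1) * (p 2 * p 2 * (q 1 * q 2)),
      (A ^ 3 + 9 * B ^ 2) * (p 0 * p 0 * (q 0 * q 0)) + (A ^ 2) * (p 0 * p 0 * (q 1 * q 1)) + (4 * A
      ^ 2) * (p 0 * p 1 * (q 0 * q 1)) + (A ^ 2) * (p 1 * p 1 * (q 0 * q 0)) + (3 * A * B) * (p 0 * p
      0 * (q 0 * q 1)) + (3 * A * B) * (p 0 * p 1 * (q 0 * q 0)) + (-(3 * A)) * (p 1 * p 1 * (q 1 * q
      1)) + (-(9 * B)) * (p 0 * p 1 * (q 1 * q 1)) + (-(9 * B)) * (p 1 * p 1 * (q 0 * q 1)) + (-(1))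
      * (p 2 * p 2 * (q 2 * q 2))]]

/-- the matrix -/
noncomputable def lmat (a b : K) (i j : Fin 3) : MvPolynomial (Fin 2 × Fin 3) K :=
  ((ltab a b i j).map ltm).sum

lemma MH_zero' : MH (fun _ => 2) (0 : MvPolynomial (Fin 2 × Fin 3) K) := by
  intro m hm; simp at hm

lemma MH_add' {f g : MvPolynomial (Fin 2 × Fin 3) K} (hf : MH (fun _ => 2) f)
    (hg : MH (fun _ => 2) g) : MH (fun _ => 2) (f + g) := by
  classical
  intro m hm j
  rcases Finset.mem_union.1 (support_add hm) with h | h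
  · exact hf m h j
  · exact hg m h j

lemma sum_single' (g h : Fin 2) (i : Fin 3) :
    ∑ c, (Finsupp.single (g, i) 1 : Fin 2 × Fin 3 →₀ ℕ) (h, c) = if g = h then 1 else 0 := by
  classical
  simp only [Finsupp.single_apply, Prod.mk.injEq]
  by_cases hgh : g = h
  · simp [hgh]
  · simp [hgh]

lemma MH_ltm (t : K × Fin 3 × Fin 3 × Fin 3 × Fin 3) : MH (fun _ => 2) (ltm t) := by
  classical
  obtain ⟨c, i, j, k, l⟩ := t
  have e : ltm (c, i, j, k, l) = monomial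
      (Finsupp.single ((0 : Fin 2), i) 1 + Finsupp.single ((0 : Fin 2), j) 1 +
        (Finsupp.single ((1 : Fin 2), k) 1 + Finsupp.single ((1 : Fin 2), l) 1)) c := by
    simp only [ltm, X, monomial_mul, C_mul_monomial, mul_one]
  rw [e]
  intro m hm g
  have hm' := support_monomial_subset hm
  rw [Finset.mem_singleton] at hm'
  subst hm'
  simp only [Finsupp.add_apply, Finset.sum_add_distrib, sum_single']
  fin_cases g <;> simp

lemma MH_lmat (a b : K) (i j : Fin 3) : MH (fun _ => 2) (lmat a b i j) := by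
  unfold lmat
  induction ltab a b i j with
  | nil => simpa using MH_zero'
  | cons t L ih =>
    rw [List.map_cons, List.sum_cons]
    exact MH_add' (MH_ltm t) ih

lemma ev_lmat {F : Type} [Field F] [Algebra K F] (a b : K) (p q : Fin 3 → F) (i j : Fin 3) :
    ev (lmat a b i j) ![p, q] = lval (algebraMap K F a) (algebraMap K F b) p q i j := by
  have h : ∀ L : List (K × Fin 3 × Fin 3 × Fin 3 × Fin 3), ev ((L.map ltm).sum) ![p, q] =
      (L.map fun t => algebraMap K F t.1 *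
        (p t.2.1 * p t.2.2.1 * (q t.2.2.2.1 * q t.2.2.2.2))).sum := by
    intro L
    induction L with
    | nil => simp [ev]
    | cons t L ih =>
      rw [List.map_cons, List.sum_cons, List.map_cons, List.sum_cons, ← ih]
      simp [ev, ltm]
  unfold lmat
  rw [h]
  fin_cases i <;> fin_cases j <;>
    simp [ltab, lval, map_ofNat] <;> ring

end forms

section alg

variable {F : Type} [Field F]

lemma lsubst {a b x1 y1 x2 y2 : F} (hx : x1 - x2 ≠ 0) (e1 : y1 ^ 2 = x1 ^ 3 + a * x1 + b)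
    (e2 : y2 ^ 2 = x2 ^ 3 + a * x2 + b) :
    a = ((y1 ^ 2 - y2 ^ 2) - (x1 ^ 3 - x2 ^ 3)) / (x1 - x2) ∧
    b = y1 ^ 2 - x1 ^ 3 - ((y1 ^ 2 - y2 ^ 2) - (x1 ^ 3 - x2 ^ 3)) / (x1 - x2) * x1 := by
  have ha : a = ((y1 ^ 2 - y2 ^ 2) - (x1 ^ 3 - x2 ^ 3)) / (x1 - x2) := by
    rw [eq_div_iff hx]; linear_combination e2 - e1
  refine ⟨ha, ?_⟩
  rw [← ha]; linear_combination -e1

/-- coordinates of the sum for different first coordinates -/
def chd (x1 y1 x2 y2 : F) : Fin 3 → F :=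
  ![1, ((y1 - y2) / (x1 - x2)) ^ 2 - x1 - x2,
    -((y1 - y2) / (x1 - x2) * (((y1 - y2) / (x1 - x2)) ^ 2 - x1 - x2 - x1) + y1)]

/-- coordinates of the double of a point -/
def dbl (a x y : F) : Fin 3 → F :=
  ![1, ((3 * x ^ 2 + a) / (2 * y)) ^ 2 - x - x,
    -((3 * x ^ 2 + a) / (2 * y) * (((3 * x ^ 2 + a) / (2 * y)) ^ 2 - x - x - x) + y)]

lemma lgen {a b x1 y1 x2 y2 : F} (hx : x1 - x2 ≠ 0) (e1 : y1 ^ 2 = x1 ^ 3 + a * x1 + b)
    (e2 : y2 ^ 2 = x2 ^ 3 + a * x2 + b) (i j : Fin 3) :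
    lval a b ![1, x1, y1] ![1, x2, y2] i j = (x1 - x2) ^ 3 *
      (chd x1 y1 x2 y2 i * chd x1 y1 x2 (-y2) j) := by
  obtain ⟨ha, hb⟩ := lsubst hx e1 e2
  rw [hb, ha]
  fin_cases i <;> fin_cases j <;> simp [lval, chd] <;> field_simp <;> ring

lemma ldbl {a b x y : F} (hy : y ≠ 0) (h2 : (2 : F) ≠ 0) (e : y ^ 2 = x ^ 3 + a * x + b)
    (i j : Fin 3) :
    lval a b ![1, x, y] ![1, x, y] i j = (-(8 * y ^ 3)) *
      (dbl a x y i * (![0, 0, 1] : Fin 3 → F) j) := by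
  have hb : b = y ^ 2 - x ^ 3 - a * x := by linear_combination -e
  subst hb
  fin_cases i <;> fin_cases j <;> simp [lval, dbl] <;> (try field_simp) <;> ring

lemma lneg {a b x y : F} (hy : y ≠ 0) (h2 : (2 : F) ≠ 0) (e : y ^ 2 = x ^ 3 + a * x + b)
    (i j : Fin 3) :
    lval a b ![1, x, y] ![1, x, -y] i j = (-(8 * y ^ 3)) *
      ((![0, 0, 1] : Fin 3 → F) i * dbl a x y j) := by
  have hb : b = y ^ 2 - x ^ 3 - a * x := by linear_combination -e
  subst hb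
  fin_cases i <;> fin_cases j <;> simp [lval, dbl] <;> (try field_simp) <;> ring

lemma ltwo {a b x : F} (e : 0 = x ^ 3 + a * x + b) (i j : Fin 3) :
    lval a b ![1, x, 0] ![1, x, 0] i j = (3 * x ^ 2 + a) ^ 3 *
      ((![0, 0, 1] : Fin 3 → F) i * (![0, 0, 1] : Fin 3 → F) j) := by
  have hb : b = - x ^ 3 - a * x := by linear_combination -e
  subst hb
  fin_cases i <;> fin_cases j <;> simp [lval] <;> ring

lemma lzl {a b x y : F} (i j : Fin 3) :
    lval a b ![0, 0, 1] ![1, x, y] i j = 1 *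
      ((![1, x, y] : Fin 3 → F) i * (![1, x, -y] : Fin 3 → F) j) := by
  fin_cases i <;> fin_cases j <;> simp [lval] <;> ring

lemma lzr {a b x y : F} (i j : Fin 3) :
    lval a b ![1, x, y] ![0, 0, 1] i j = (-1) *
      ((![1, x, y] : Fin 3 → F) i * (![1, x, y] : Fin 3 → F) j) := by
  fin_cases i <;> fin_cases j <;> simp [lval] <;> ring

lemma lzz {a b : F} (i j : Fin 3) :
    lval a b ![0, 0, 1] ![0, 0, 1] i j = (-1) *
      ((![0, 0, 1] : Fin 3 → F) i * (![0, 0, 1] : Fin 3 → F) j) := by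
  fin_cases i <;> fin_cases j <;> simp [lval]

lemma ceqn {a b x y : F} : (curve a b).toAffine.Equation x y ↔ y ^ 2 = x ^ 3 + a * x + b := by
  rw [Affine.equation_iff]; simp [curve]

variable [DecidableEq F]

lemma coords_zero' {a b : F} : coords (0 : (curve a b).toAffine.Point) = ![0, 0, 1] := rfl

lemma coords_chd {a b x1 y1 x2 y2 : F} (h1 : (curve a b).toAffine.Nonsingular x1 y1)
    (h2 : (curve a b).toAffine.Nonsingular x2 y2) (hx : x1 ≠ x2) :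
    coords (Affine.Point.some x1 y1 h1 + Affine.Point.some x2 y2 h2) = chd x1 y1 x2 y2 := by
  rw [Affine.Point.add_of_X_ne hx]
  simp only [coords, Affine.slope_of_X_ne hx, chd]
  ext i; fin_cases i
  · simp
  · simp [Affine.addX, curve]
  · simp [Affine.addX, Affine.addY, Affine.negY, Affine.negAddY, curve]

lemma coords_dbl {a b x y : F} (hy : y ≠ 0) (h2 : (2 : F) ≠ 0)
    (h1 h1' : (curve a b).toAffine.Nonsingular x y) :
    coords (Affine.Point.some x y h1 + Affine.Point.some x y h1') = dbl a x y := by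
  have hneg : y ≠ (curve a b).toAffine.negY x y := by
    simp only [Affine.negY, curve]
    intro hh
    apply hy
    have h3 : (2 : F) * y = 0 := by linear_combination hh
    exact (mul_eq_zero.mp h3).resolve_left h2
  rw [Affine.Point.add_self_of_Y_ne hneg]
  have hsl : (curve a b).toAffine.slope x x y y = (3 * x ^ 2 + a) / (2 * y) := by
    rw [Affine.slope_of_Y_ne rfl hneg]
    simp only [curve, Affine.negY]
    congr 1
    · ring
    · ring
  simp only [coords, hsl, dbl]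
  ext i; fin_cases i
  · simp
  · simp [Affine.addX, curve]
  · simp [Affine.addX, Affine.addY, Affine.negY, Affine.negAddY, curve]

lemma neg_some' {a b x y : F} (h1 : (curve a b).toAffine.Nonsingular x y)
    (h1' : (curve a b).toAffine.Nonsingular x (-y)) :
    -(Affine.Point.some x y h1) = Affine.Point.some x (-y) h1' := by
  rw [Affine.Point.neg_some]
  simp [Affine.negY, curve]

lemma nons_neg {a b x y : F} (h1 : (curve a b).toAffine.Nonsingular x y) :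
    (curve a b).toAffine.Nonsingular x (-y) := by
  have h := (Affine.nonsingular_neg x y).2 h1
  simpa [Affine.negY, curve] using h

theorem lmain (h2 : (2 : F) ≠ 0) (a b : F) (hD : 4 * a ^ 3 + 27 * b ^ 2 ≠ 0)
    (P Q : (curve a b).toAffine.Point) :
    ∃ s : F, s ≠ 0 ∧ ∀ i j, lval a b (coords P) (coords Q) i j =
      s * (coords (P + Q) i * coords (P - Q) j) := by
  have h8 : (8 : F) ≠ 0 := by
    have : (8 : F) = 2 ^ 3 := by norm_num
    rw [this]; exact pow_ne_zero _ h2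
  match P, Q with
  | 0, 0 =>
    refine ⟨-1, neg_ne_zero.2 one_ne_zero, fun i j => ?_⟩
    rw [add_zero, sub_zero, coords_zero', lzz]
  | 0, .some x y h =>
    refine ⟨1, one_ne_zero, fun i j => ?_⟩
    rw [zero_add, zero_sub, neg_some' h (nons_neg h), coords_zero']
    exact lzl i j
  | .some x y h, 0 =>
    refine ⟨-1, neg_ne_zero.2 one_ne_zero, fun i j => ?_⟩
    rw [add_zero, sub_zero, coords_zero']
    exact lzr i j
  | .some x1 y1 h1, .some x2 y2 h2' =>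
    have q1 := ceqn.mp h1.1
    have q2 := ceqn.mp h2'.1
    rw [sub_eq_add_neg, neg_some' h2' (nons_neg h2')]
    by_cases hx : x1 = x2
    · subst hx
      have hyy : y2 = y1 ∨ y2 = -y1 := by
        have : y2 ^ 2 = y1 ^ 2 := by rw [q1, q2]
        exact sq_eq_sq_iff_eq_or_eq_neg.mp this
      by_cases hy0 : y1 = 0
      · subst hy0
        have hy2 : y2 = 0 := by rcases hyy with h | h <;> simpa using h
        subst hy2
        have e0 : (0 : F) = x1 ^ 3 + a * x1 + b := by rw [← q1]; ring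
        refine ⟨(3 * x1 ^ 2 + a) ^ 3, ?_, fun i j => ?_⟩
        · intro h5
          have h4 : 3 * x1 ^ 2 + a = 0 := pow_eq_zero_iff (by norm_num) |>.mp h5
          apply hD
          have ha : a = -3 * x1 ^ 2 := by linear_combination h4
          have hb : b = 2 * x1 ^ 3 := by
            have : b = - x1 ^ 3 - a * x1 := by linear_combination -q1
            rw [this, ha]; ring
          rw [ha, hb]; ring
        · have e1 : Affine.Point.some x1 0 h1 + Affine.Point.some x1 0 h2' = 0 := by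
            have := add_neg_cancel (Affine.Point.some x1 0 h1)
            rw [neg_some' h1 (nons_neg h1)] at this
            simpa using this
          have e2 : Affine.Point.some x1 0 h1 + Affine.Point.some x1 (-0) (nons_neg h2') = 0 := by
            have := add_neg_cancel (Affine.Point.some x1 0 h1)
            rwa [neg_some' h1 (nons_neg h1)] at this
          rw [e1, e2, coords_zero']
          exact ltwo e0 i j
      · rcases hyy with h | h
        · subst h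
          refine ⟨-(8 * y2 ^ 3), neg_ne_zero.2 (mul_ne_zero h8 (pow_ne_zero _ hy0)),
            fun i j => ?_⟩
          have e2 : Affine.Point.some x1 y2 h1 + Affine.Point.some x1 (-y2) (nons_neg h2') = 0 := by
            have := add_neg_cancel (Affine.Point.some x1 y2 h1)
            rwa [neg_some' h1 (nons_neg h1)] at this
          rw [e2, coords_dbl hy0 h2, coords_zero']
          exact ldbl hy0 h2 q1 i j
        · subst h
          refine ⟨-(8 * y1 ^ 3), neg_ne_zero.2 (mul_ne_zero h8 (pow_ne_zero _ hy0)),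
            fun i j => ?_⟩
          have e1 : Affine.Point.some x1 y1 h1 + Affine.Point.some x1 (-y1) h2' = 0 := by
            have := add_neg_cancel (Affine.Point.some x1 y1 h1)
            rwa [neg_some' h1 h2'] at this
          have e2 : Affine.Point.some x1 (- -y1) (nons_neg h2') = Affine.Point.some x1 y1 h1 := by
            simp
          rw [e1, e2, coords_dbl hy0 h2, coords_zero']
          exact lneg hy0 h2 q1 i j
    · refine ⟨(x1 - x2) ^ 3, pow_ne_zero _ (sub_ne_zero.2 hx), fun i j => ?_⟩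
      rw [coords_chd h1 h2' hx, coords_chd h1 _ hx]
      exact lgen (sub_ne_zero.2 hx) q1 q2 i j

end alg

theorem lam : T_lam := by
  intro K _ _ a b hD
  refine ⟨lmat a b, fun i j => MH_lmat a b i j, ?_⟩
  intro F _ _ _ P Q
  have hinj : Function.Injective (algebraMap K F) := (algebraMap K F).injective
  have h2 : (2 : F) ≠ 0 := by
    have : (2 : F) = algebraMap K F 2 := (map_ofNat (algebraMap K F) 2).symm
    rw [this]
    exact (map_ne_zero_iff _ hinj).2 two_ne_zero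
  have hD' : 4 * (algebraMap K F a) ^ 3 + 27 * (algebraMap K F b) ^ 2 ≠ 0 := by
    have : 4 * (algebraMap K F a) ^ 3 + 27 * (algebraMap K F b) ^ 2 =
        algebraMap K F (4 * a ^ 3 + 27 * b ^ 2) := by
      rw [map_add, map_mul, map_mul, map_pow, map_pow, map_ofNat, map_ofNat]
    rw [this]
    exact (map_ne_zero_iff _ hinj).2 hD
  obtain ⟨s, hs, h⟩ := lmain h2 _ _ hD' P Q
  exact ⟨s, hs, fun i j => by rw [ev_lmat]; exact h i j⟩

end Pool.Agent.TH954.X.We
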